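import Pool.Agent.K6.H96.MX.Nn

/-!
# Rationally connected double covers of products of projective spaces, Fano or not: the closure of
# the rational points is open outside a proper closed subset

`K` is a field of characteristic zero, for example a number field, and `X` is the double cover
`w² = f(x₁, …, x_r)` of `ℙ^{n₁} × … × ℙ^{n_r}`, `n_i ≥ 1`, branched along a divisor of multidegree
`(d₁, …, d_r)`, where each `d_i` is `2` or `4`. If `X` is smooth, then it is rationally connected if
and only if there is a factor `k` with `d_k = 2`, or with `d_k = 4` and `n_k ≥ 2`: then the fibres of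
`X` over the product of the other factors are quadrics or double covers of `ℙ^{n_k}` branched along
quartics. The other factors are arbitrary, in particular they can be projective lines with
`d_i = 4`, and then `X` is not a Fano variety. The simplest new examples are the fibrations in del
Pezzo surfaces of degree two over the line `w² = f(x, t)`, `x ∈ ℙ²`, `t ∈ ℙ¹`, of bidegree
`(4, 4)`, and their analogues over `(ℙ¹)^m`.

For a point `T` of `X` and a factor `i` let `f_{T,i}` be the form of degree `d_i` in the variables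
of the `i`-th factor, which one gets by inserting the other coordinates of `T` in `f`.

We consider finite nonempty sets of `p`-adic places of degree one (embeddings of `K` into `ℚ_p`)
over different primes `p`, with or without a real place; for `K = ℚ` these are all the finite sets
of places which contain a finite place.

**Theorem.** (1) Let `f` be irreducible, and suppose that for each `i` the form `f_{x,i}` is smooth
for some point `x` of the product (both are true if `X` is smooth, of dimension at least two, by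
generic smoothness), and that there is a factor `k` with `d_k = 2` or `n_k ≥ 2`. Then there is a
proper closed subset `Z` of `X`, given by the equation `w N = 0` with a polynomial `N ≠ 0` over `K`
which depends only on `f`, such that for every such set of places the closure of `X(K)` in the
product of the `X(K_v)` is a neighbourhood of each of its points `T = (T_v)` for which no `T_v`
belongs to `Z`.

(2) An explicit criterion at a given point. We say that a factor `k` serves a factor `i ≠ k` at `T`
if `f_{T,k}` is smooth, one of the derivatives of `f` with respect to the variables of the `i`-th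
factor is not a multiple of `f`, both considered as forms in the variables of the `k`-th factor (the
other coordinates are those of `T`), and if for some point `T'` outside the branch divisor, which
differs from `T` only in the `k`-th factor, `f_{T',i}` is smooth. For every smooth quartic form `G`
over `ℚ_p` in `m + 1 ≥ 3` variables there is a finite set `E(G)` of points of `ℙᵐ(ℚ_p)`, such that
for every `X` (without conditions on `f`) and every such set of places the closure of `X(K)` is a
neighbourhood of each of its points `T = (T_v)` outside the branch divisor, for which every factor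
`i` with `d_i = 4` is connected by a chain of factors, each of which serves the next one at all the
`T_v`, with a factor `k` such that `d_k = 2`, or `n_k ≥ 2`, the quartic forms `f_{T_v,k}` are smooth
and, for the `p`-adic places `v`, the `k`-th component of `T_v` does not belong to `E(f_{T_v,k})`.

(In the formal statement we work with the coordinates `(x, w)`, that is with the cone over `X`.)

Idea of the proof. In a factor with `d_k = 2` one can move along conics. In a factor with `d_k = 4`,
`n_k ≥ 2`, the difference of the points `(x, w)` and `(x, -w)` has infinite order on the curves of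
genus one over most of the lines through the `k`-th component of `T_v` (`Pool.Agent.Y718.CL`). If one
can move in the `k`-th factor, and it serves the factor `i`, then we move along a general line in
the `k`-th factor. Where this line meets the branch divisor in the algebraic closure, the difference
of the two points on the curves in the direction of the `i`-th factor has a pole, because the
derivative in this direction is not zero there. So it is of infinite order for all but countably
many points of the line, and we can move in the `i`-th factor, too. For (1) we show that the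
conditions are fulfilled outside a divisor: an irreducible `f` does not divide its derivatives, and
the exceptional points of the factor `k` satisfy the equations that the determinants of the values
of two covariants at `n_k + 2` directions vanish, not all of which are identically zero.
-/

set_option autoImplicit false

namespace Pool.Agent.Results.MP_83e36b_nt.DoubleCoversOfProducts

open MvPolynomial Pool.Agent.Y720.MZ

/-- The point `(x, w)` lies on the double cover `w² = f(x)`. -/
def OnCover {F : Type} [Field F] {α : Type} (f : MvPolynomial α F) (P : (α → F) × F) : Prop :=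
  P.2 ^ 2 = eval P.1 f

/-- The image of a point under an embedding of fields. -/
def image {K F : Type} [Field K] [Field F] (φ : K →+* F) {α : Type} (P : (α → K) × K) :
    (α → F) × F :=
  (fun a => φ (P.1 a), φ P.2)

/-- The closure of the `K`-points in the product of the sets of the `ℚ_[p v]`-points. -/
def Closure {K : Type} [Field K] {α : Type} [Fintype α] (f : MvPolynomial α K) {ι : Type}
    {p : ι → ℕ} [∀ v, Fact (p v).Prime] (σ : ∀ v, K →+* ℚ_[p v]) :
    Set (∀ v, (α → ℚ_[p v]) × ℚ_[p v]) :=
  closure {S | ∃ P, OnCover f P ∧ S = fun v => image (σ v) P}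

/-- The closure of the `K`-points in the product of the set of the real points and of the sets of
the `ℚ_[p v]`-points. -/
def ClosureReal {K : Type} [Field K] {α : Type} [Fintype α] (f : MvPolynomial α K) {ι : Type}
    {p : ι → ℕ} [∀ v, Fact (p v).Prime] (σ : ∀ v, K →+* ℚ_[p v]) (τ : K →+* ℝ) :
    Set (((α → ℝ) × ℝ) × ∀ v, (α → ℚ_[p v]) × ℚ_[p v]) :=
  closure {S | ∃ P, OnCover f P ∧ S = (image τ P, fun v => image (σ v) P)}

/-- The variables `x_{i,j}`, `0 ≤ j ≤ n_i`, of the `r` factors `ℙ^{n_i}`. -/
abbrev Vars {r : ℕ} (n : Fin r → ℕ) : Type := (i : Fin r) × Fin (n i + 1)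

/-- The polynomial is a form of degree `d i` in the variables of the `i`-th factor. -/
def MultiHomogeneous {r : ℕ} {n : Fin r → ℕ} (d : Fin r → ℕ) {F : Type} [Field F]
    (f : MvPolynomial (Vars n) F) : Prop :=
  ∀ m ∈ f.support, ∀ i, ∑ j, m ⟨i, j⟩ = d i

/-- The form in the variables of the `i`-th factor, which one gets by inserting the coordinates of
the point `x` for the other variables. -/
noncomputable def restriction {r : ℕ} {n : Fin r → ℕ} {F : Type} [Field F]
    (f : MvPolynomial (Vars n) F) (x : Vars n → F) (i : Fin r) :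
    MvPolynomial (Fin (n i + 1)) F :=
  aeval (fun a : Vars n => Function.update
    (fun (k : Fin r) (j : Fin (n k + 1)) => (C (x ⟨k, j⟩) : MvPolynomial (Fin (n i + 1)) F)) i
    (fun j => (X j : MvPolynomial (Fin (n i + 1)) F)) a.1 a.2) f

/-- The hypersurface `G = 0` is smooth. -/
def SmoothForm {F : Type} [Field F] {m : ℕ} (G : MvPolynomial (Fin m) F) : Prop :=
  ∀ y : Fin m → AlgebraicClosure F, (∀ j, aeval y (pderiv j G) = 0) → y = 0

/-- The point `x` with the coordinates of the `k`-th factor replaced by `u`. -/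
def replace {r : ℕ} {n : Fin r → ℕ} {F : Type} [Field F] (x : Vars n → F) (k : Fin r)
    (u : Fin (n k + 1) → F) : Vars n → F :=
  fun a => Function.update (fun (k : Fin r) (j : Fin (n k + 1)) => x ⟨k, j⟩) k u a.1 a.2

/-- The `k`-th factor serves the `i`-th factor at the point `x`: the form in the variables of the
`k`-th factor is smooth, a derivative of `f` with respect to a variable of the `i`-th factor is not a
multiple of `f`, as forms in the variables of the `k`-th factor, and the form in the variables of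
the `i`-th factor is smooth for some point which differs from `x` only in the `k`-th factor. -/
def Serves {r : ℕ} {n : Fin r → ℕ} {F : Type} [Field F] (f : MvPolynomial (Vars n) F)
    (x : Vars n → F) (k i : Fin r) : Prop :=
  k ≠ i ∧ SmoothForm (restriction f x k) ∧
    (∃ j, ∀ c : F, restriction (pderiv ⟨i, j⟩ f) x k ≠ C c * restriction f x k) ∧
    ∃ u : Fin (n k + 1) → F, eval (replace x k u) f ≠ 0 ∧
      SmoothForm (restriction f (replace x k u) i)

/-- The `k`-th factor is free at the `p`-adic point `x`: `n_k ≥ 2`, the form in the variables of the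
`k`-th factor is smooth, and the `k`-th component of `x` is not one of its exceptional points. -/
def Free (E : ∀ (p : ℕ) [Fact p.Prime] (m : ℕ), MvPolynomial (Fin (m + 1)) ℚ_[p] →
    Set (Fin (m + 1) → ℚ_[p])) {p : ℕ} [Fact p.Prime] {r : ℕ} {n : Fin r → ℕ}
    (g : MvPolynomial (Vars n) ℚ_[p]) (x : Vars n → ℚ_[p]) (k : Fin r) : Prop :=
  2 ≤ n k ∧ SmoothForm (restriction g x k) ∧
    ∀ e ∈ E p (n k) (restriction g x k), ∀ c : ℚ_[p], (fun j => x ⟨k, j⟩) ≠ c • e

/-- Each factor `i` with `d i = 4` is connected by a chain of factors, each of which serves the next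
one, with a factor `k` which is free or has `d k = 2`. -/
def Connected {r : ℕ} (d : Fin r → ℕ) (free : Fin r → Prop) (serves : Fin r → Fin r → Prop) :
    Prop :=
  ∀ i, d i = 4 → ∃ k, (d k = 2 ∨ free k) ∧ Relation.ReflTransGen serves k i

/-- The closure of the `K`-points is a neighbourhood of `T`. -/
def OpenAt {K : Type} [Field K] {α : Type} [Fintype α] (f : MvPolynomial α K) {ι : Type}
    {p : ι → ℕ} [∀ v, Fact (p v).Prime] (σ : ∀ v, K →+* ℚ_[p v])
    (T : ∀ v, (α → ℚ_[p v]) × ℚ_[p v]) : Prop :=
  ∃ U ∈ nhds T, ∀ S ∈ U, (∀ v, OnCover (map (σ v) f) (S v)) → S ∈ Closure f σ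

/-- The same with a real place. -/
def OpenAtReal {K : Type} [Field K] {α : Type} [Fintype α] (f : MvPolynomial α K) {ι : Type}
    {p : ι → ℕ} [∀ v, Fact (p v).Prime] (σ : ∀ v, K →+* ℚ_[p v]) (τ : K →+* ℝ)
    (T : ((α → ℝ) × ℝ) × ∀ v, (α → ℚ_[p v]) × ℚ_[p v]) : Prop :=
  ∃ U ∈ nhds T, ∀ S ∈ U, OnCover (map τ f) S.1 → (∀ v, OnCover (map (σ v) f) (S.2 v)) →
    S ∈ ClosureReal f σ τ

/-- Property (1): for all finite nonempty sets of `p`-adic places of degree one, with or without a
real place, the closure of the `K`-points is a neighbourhood of each of its points where neither `w`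
nor `N` vanishes. -/
def OpenOutside {K : Type} [Field K] {α : Type} [Fintype α] (f N : MvPolynomial α K) : Prop :=
  ∀ (ι : Type) [Finite ι] [Nonempty ι] (p : ι → ℕ) [∀ v, Fact (p v).Prime],
    Function.Injective p → ∀ σ : ∀ v, K →+* ℚ_[p v],
      (∀ T ∈ Closure f σ, (∀ v, (T v).2 ≠ 0 ∧ eval (T v).1 (map (σ v) N) ≠ 0) →
        OpenAt f σ T) ∧
      ∀ (τ : K →+* ℝ), ∀ T ∈ ClosureReal f σ τ, (T.1.2 ≠ 0 ∧ eval T.1.1 (map τ N) ≠ 0) →
        (∀ v, (T.2 v).2 ≠ 0 ∧ eval (T.2 v).1 (map (σ v) N) ≠ 0) → OpenAtReal f σ τ T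

/-- Property (2): for all finite nonempty sets of `p`-adic places of degree one, with or without a
real place, the closure of the `K`-points is a neighbourhood of each of its points `T` with `w ≠ 0`
at which all factors of degree four are connected with factors of degree two or free factors. -/
def OpenIfConnected (E : ∀ (p : ℕ) [Fact p.Prime] (m : ℕ), MvPolynomial (Fin (m + 1)) ℚ_[p] →
    Set (Fin (m + 1) → ℚ_[p])) {K : Type} [Field K] {r : ℕ} {n : Fin r → ℕ} (d : Fin r → ℕ)
    (f : MvPolynomial (Vars n) K) : Prop :=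
  ∀ (ι : Type) [Finite ι] [Nonempty ι] (p : ι → ℕ) [∀ v, Fact (p v).Prime],
    Function.Injective p → ∀ σ : ∀ v, K →+* ℚ_[p v],
      (∀ T ∈ Closure f σ, (∀ v, (T v).2 ≠ 0) →
        Connected d (fun k => ∀ v, Free E (map (σ v) f) (T v).1 k)
          (fun a b => ∀ v, Serves (map (σ v) f) (T v).1 a b) → OpenAt f σ T) ∧
      ∀ (τ : K →+* ℝ), ∀ T ∈ ClosureReal f σ τ, T.1.2 ≠ 0 → (∀ v, (T.2 v).2 ≠ 0) →
        Connected d (fun k => SmoothForm (restriction (map τ f) T.1.1 k) ∧
            ∀ v, Free E (map (σ v) f) (T.2 v).1 k)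
          (fun a b => Serves (map τ f) T.1.1 a b ∧
            ∀ v, Serves (map (σ v) f) (T.2 v).1 a b) → OpenAtReal f σ τ T

section aux

variable {K : Type} [Field K] [CharZero K] {α : Type} [Fintype α] {f : MvPolynomial α K}

omit [CharZero K] in
lemma dist_image {F : Type} [NormedField F] (φ : K →+* F) (P : (α → K) × K)
    (T : (α → F) × F) {η : ℝ} (hη : 0 < η) : dist T (image φ P) < η ↔
      (∀ j, ‖φ (P.1 j) - T.1 j‖ < η) ∧ ‖φ P.2 - T.2‖ < η := by
  rw [dist_comm, Prod.dist_eq, max_lt_iff, dist_pi_lt_iff hη]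
  simp only [dist_eq_norm, image]

variable {ι : Type} [Finite ι] {p : ι → ℕ} [hp : ∀ i, Fact (p i).Prime]

omit [CharZero K] in
lemma fill_p (σ : ∀ i, K →+* ℚ_[p i]) {T : ∀ i, (α → ℚ_[p i]) × ℚ_[p i]}
    (hcl : T ∈ Closure f σ) (hI : IntL σ f (fun i => (T i).1) (fun i => (T i).2)) :
    ∃ U ∈ nhds T, ∀ S ∈ U, (∀ i, OnCover (map (σ i) f) (S i)) → S ∈ Closure f σ := by
  have : Fintype ι := Fintype.ofFinite ι
  obtain ⟨ε, hε, hint⟩ := hI
  obtain ⟨_, ⟨P, hP, rfl⟩, h2⟩ := Metric.mem_closure_iff.1 hcl ε hε
  rw [dist_pi_lt_iff hε] at h2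
  refine ⟨Metric.ball T ε, Metric.ball_mem_nhds T hε, fun S hS hSX => ?_⟩
  rw [Metric.mem_ball, dist_pi_lt_iff hε] at hS
  rw [Closure, Metric.mem_closure_iff]
  intro η hη
  obtain ⟨z, w, k1, k2⟩ := hint P.1 P.2 hP (fun i => (dist_image (σ i) P (T i) hε).1 (h2 i))
    (fun i => (S i).1) (fun i => (S i).2) hSX (fun i => by
      have h3 := hS i
      rw [Prod.dist_eq, max_lt_iff, dist_pi_lt_iff hε] at h3
      simp only [dist_eq_norm] at h3
      exact h3) η hη
  refine ⟨_, ⟨(z, w), k1, rfl⟩, ?_⟩
  rw [dist_pi_lt_iff hη]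
  exact fun i => (dist_image (σ i) (z, w) (S i) hη).2 (k2 i)

omit [CharZero K] in
lemma fill_r (σ : ∀ i, K →+* ℚ_[p i]) (τ : K →+* ℝ)
    {T : ((α → ℝ) × ℝ) × ∀ i, (α → ℚ_[p i]) × ℚ_[p i]}
    (hcl : T ∈ ClosureReal f σ τ) {x : ∀ v : Option ι, α → Lv p v} {y : ∀ v : Option ι, Lv p v}
    (hx0 : x none = T.1.1) (hy0 : y none = T.1.2) (hx : ∀ i, x (some i) = (T.2 i).1)
    (hy : ∀ i, y (some i) = (T.2 i).2)
    (hI : IntL (sv σ τ) f x y) :
    ∃ U ∈ nhds T, ∀ S ∈ U, OnCover (map τ f) S.1 → (∀ i, OnCover (map (σ i) f) (S.2 i)) →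
      S ∈ ClosureReal f σ τ := by
  have : Fintype ι := Fintype.ofFinite ι
  obtain ⟨ε, hε, hint⟩ := hI
  obtain ⟨_, ⟨P, hP, rfl⟩, h2⟩ := Metric.mem_closure_iff.1 hcl ε hε
  rw [Prod.dist_eq, max_lt_iff, dist_pi_lt_iff hε] at h2
  refine ⟨Metric.ball T ε, Metric.ball_mem_nhds T hε, fun S hS hSr hSX => ?_⟩
  rw [Metric.mem_ball, Prod.dist_eq, max_lt_iff, dist_pi_lt_iff hε] at hS
  rw [ClosureReal, Metric.mem_closure_iff]
  intro η hη
  let x' : ∀ v : Option ι, α → Lv p v := fun v =>
    match v with
    | none => S.1.1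
    | some i => (S.2 i).1
  let y' : ∀ v : Option ι, Lv p v := fun v =>
    match v with
    | none => S.1.2
    | some i => (S.2 i).2
  obtain ⟨z, w, k1, k2⟩ := hint P.1 P.2 hP
    (by
      rintro (_ | i)
      · rw [hx0, hy0]
        exact (dist_image τ P T.1 hε).1 h2.1
      · rw [hx, hy]
        exact (dist_image (σ i) P (T.2 i) hε).1 (h2.2 i))
    x' y'
    (by
      rintro (_ | i)
      · exact hSr
      · exact hSX i)
    (by
      rintro (_ | i)
      · have h3 := hS.1
        rw [Prod.dist_eq, max_lt_iff, dist_pi_lt_iff hε] at h3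
        simp only [dist_eq_norm] at h3
        rw [hx0, hy0]
        exact h3
      · have h3 := hS.2 i
        rw [Prod.dist_eq, max_lt_iff, dist_pi_lt_iff hε] at h3
        simp only [dist_eq_norm] at h3
        rw [hx, hy]
        exact h3) η hη
  refine ⟨_, ⟨(z, w), k1, rfl⟩, ?_⟩
  rw [Prod.dist_eq, max_lt_iff, dist_pi_lt_iff hη]
  exact ⟨(dist_image τ (z, w) S.1 hη).2 (k2 none),
    fun i => (dist_image (σ i) (z, w) (S.2 i) hη).2 (k2 (some i))⟩

end aux

section closed

variable {K : Type} [Field K] {α : Type} [Fintype α] {f : MvPolynomial α K} {ι : Type}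
  {p : ι → ℕ} [∀ i, Fact (p i).Prime]

omit [Fintype α] in
lemma onCover_image {F : Type} [Field F] (φ : K →+* F) {P : (α → K) × K} (h : OnCover f P) :
    OnCover (map φ f) (image φ P) := by
  have k1 : eval (image φ P).1 (map φ f) = φ (eval P.1 f) := by
    rw [eval_map, image]
    exact (eval₂_comp_left φ (RingHom.id K) P.1 f).symm ▸ rfl
  unfold OnCover at *
  rw [k1, ← h, map_pow]
  rfl

lemma isClosed_onCover {F : Type} [NormedField F] (g : MvPolynomial α F) :
    IsClosed {P : (α → F) × F | OnCover g P} :=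
  isClosed_eq (by fun_prop) ((MvPolynomial.continuous_eval g).comp continuous_fst)

lemma on_of_closure {σ : ∀ i, K →+* ℚ_[p i]} {T : ∀ i, (α → ℚ_[p i]) × ℚ_[p i]}
    (hT : T ∈ Closure f σ) (i : ι) : OnCover (map (σ i) f) (T i) := by
  have h1 : IsClosed {T : ∀ i, (α → ℚ_[p i]) × ℚ_[p i] | OnCover (map (σ i) f) (T i)} :=
    (isClosed_onCover (map (σ i) f)).preimage
      (f := fun T : ∀ i, (α → ℚ_[p i]) × ℚ_[p i] => T i) (continuous_apply i)
  refine closure_minimal ?_ h1 hT
  rintro _ ⟨P, hP, rfl⟩
  exact onCover_image (σ i) hP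

lemma on_of_closureR {σ : ∀ i, K →+* ℚ_[p i]} {τ : K →+* ℝ}
    {T : ((α → ℝ) × ℝ) × ∀ i, (α → ℚ_[p i]) × ℚ_[p i]}
    (hT : T ∈ ClosureReal f σ τ) : OnCover (map τ f) T.1 ∧ ∀ i, OnCover (map (σ i) f) (T.2 i) := by
  constructor
  · have h1 : IsClosed {T : ((α → ℝ) × ℝ) × ∀ i, (α → ℚ_[p i]) × ℚ_[p i] |
        OnCover (map τ f) T.1} := (isClosed_onCover (map τ f)).preimage continuous_fst
    refine closure_minimal ?_ h1 hT
    rintro _ ⟨P, hP, rfl⟩
    exact onCover_image τ hP
  · intro i
    have h1 : IsClosed {T : ((α → ℝ) × ℝ) × ∀ i, (α → ℚ_[p i]) × ℚ_[p i] |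
        OnCover (map (σ i) f) (T.2 i)} :=
      (isClosed_onCover (map (σ i) f)).preimage
        (f := fun T : ((α → ℝ) × ℝ) × ∀ i, (α → ℚ_[p i]) × ℚ_[p i] => T.2 i)
        ((continuous_apply i).comp continuous_snd)
    refine closure_minimal ?_ h1 hT
    rintro _ ⟨P, hP, rfl⟩
    exact onCover_image (σ i) hP

end closed

open Pool.Agent.Y718.CL in
/-- the transfer, from the conditions of the theorem -/
lemma srv_of {F : Type} [Field F] [CharZero F] (φ : F →+* ℂ) {r : ℕ} {n d : Fin r → ℕ}
    (hn : ∀ i, 1 ≤ n i) (hd : ∀ i, d i = 2 ∨ d i = 4) {f : MvPolynomial (Vars n) F} (hf : MH d f)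
    {x : Vars n → F} (hx : eval x f ≠ 0) {k i : Fin r} (hi : d i = 4) (h : Serves f x k i) :
    ∃ g₁ : (Fin (n k + 1) → F) → F, Pool.Agent.K6.H96.MX.NZ g₁ ∧ ∀ e₁, g₁ e₁ ≠ 0 →
      ∃ g₂ : (Fin (n i + 1) → F) → F, Pool.Agent.K6.H96.MX.NZ g₂ ∧ ∀ e₂, g₂ e₂ ≠ 0 →
        Tr f (hat k e₁) (hat i e₂) x := by
  obtain ⟨hki, hs, hI, u, hu, hsu⟩ := h
  have hS : S_SEP := Pool.Agent.Y718.CL.Sep.sep
  have hM : S_SMT := Pool.Agent.Y362.CL.smt
  refine Pool.Agent.K6.H96.MX.srv hf hx hki ?_ hI ?_
  · rcases hd k with hk | hk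
    · exact Pool.Agent.K6.H96.MX.NZs_two hf hx hk (hn k) hs
    · refine Pool.Agent.K6.H96.MX.NZs_four hf hk ?_
      have h0 : (Gi f x k).IsHomogeneous 4 := by
        have := Gi_hom hf x k
        rwa [hk] at this
      obtain ⟨e, he⟩ := exists_Tq hS φ (hn k) h0 (hM F (n k + 1) _ hs φ)
        (x := fun j => x ⟨k, j⟩) (by rw [Gi_self]; exact hx)
      exact ⟨e, by rw [Tq_hat]; exact he⟩
  · have h0 : (Gi f (replace x k u) i).IsHomogeneous 4 := by
      have := Gi_hom hf (replace x k u) i
      rwa [hi] at this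
    obtain ⟨e, he⟩ := exists_Tq hS φ (hn i) h0 (hM F (n i + 1) _ hsu φ)
      (x := fun j => replace x k u ⟨i, j⟩) (by rw [Gi_self]; exact hu)
    exact ⟨u, e, by
      change Tq f (hat i e) (replace x k u) ≠ 0
      rw [Tq_hat]; exact he⟩

open Pool.Agent.Y718.CL in
/-- **The closure of the rational points is open.** -/
theorem result :
    -- (1) the closure is open outside a divisor; `d` is the multidegree of the branch divisor
    (∀ (K : Type) [Field K] [CharZero K] (r : ℕ) (n d : Fin r → ℕ), (∀ i, 1 ≤ n i) →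
      (∀ i, d i = 2 ∨ d i = 4) → ∀ f : MvPolynomial (Vars n) K, MultiHomogeneous d f →
      Irreducible f → (∀ i, ∃ x : Vars n → K, SmoothForm (restriction f x i)) →
      (∃ k, d k = 2 ∨ 2 ≤ n k) →
      ∃ N : MvPolynomial (Vars n) K, N ≠ 0 ∧ OpenOutside f N) ∧
    -- (2) a criterion at a given point, with finite sets of points of the projective spaces over
    -- the `ℚ_p`
    (∃ E : ∀ (p : ℕ) [Fact p.Prime] (m : ℕ), MvPolynomial (Fin (m + 1)) ℚ_[p] →
        Set (Fin (m + 1) → ℚ_[p]),
      (∀ (p : ℕ) [Fact p.Prime] (m : ℕ) (G : MvPolynomial (Fin (m + 1)) ℚ_[p]),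
        (E p m G).Finite) ∧
      ∀ (K : Type) [Field K] [CharZero K] (r : ℕ) (n d : Fin r → ℕ), (∀ i, 1 ≤ n i) →
        (∀ i, d i = 2 ∨ d i = 4) → ∀ f : MvPolynomial (Vars n) K, MultiHomogeneous d f →
        OpenIfConnected E d f) := by
  classical
  refine ⟨?_, ?_⟩
  · intro K _ _ r n d hn hd f hf hirr hs ⟨k, hk⟩
    by_cases hφ : Nonempty (K →+* ℂ)
    · obtain ⟨N, hN, h⟩ := Pool.Agent.K6.H96.MX.exists_N hφ.some (show MH d f from hf) hirr hn hd hs
        hk
      refine ⟨N, hN, ?_⟩
      intro ι _ _ p _ hinj σ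
      refine ⟨fun T hT hw => ?_, fun τ T hT hw hw' => ?_⟩
      · exact fill_p σ hT (Pool.Agent.K6.H96.MX.gen_p hinj σ (show MH d f from hf) hd
          (on_of_closure hT) (fun v => (hw v).1) fun v => h _ (σ v) (T v).1 (hw v).2)
      · obtain ⟨hon1, hon2⟩ := on_of_closureR hT
        let x : ∀ v : Option ι, Vars n → Lv p v := fun v =>
          match v with
          | none => T.1.1
          | some i => (T.2 i).1
        let y : ∀ v : Option ι, Lv p v := fun v =>
          match v with
          | none => T.1.2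
          | some i => (T.2 i).2
        refine fill_r σ τ hT (x := x) (y := y) rfl rfl (fun _ => rfl) (fun _ => rfl)
          (Pool.Agent.K6.H96.MX.gen_r hinj σ τ (show MH d f from hf) hd (k := k) ?_ ?_ ?_ ?_)
        · rintro (_ | v)
          · exact hon1
          · exact hon2 v
        · rintro (_ | v)
          · exact hw.1
          · exact (hw' v).1
        · exact h ℝ τ T.1.1 hw.2
        · exact fun v => h _ (σ v) (T.2 v).1 (hw' v).2
    · refine ⟨1, one_ne_zero, ?_⟩
      intro ι _ hι p _ hinj σ
      obtain ⟨v⟩ := hι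
      exact absurd ⟨((Pool.Agent.Y447.CL.emb (p v)).some).comp (σ v)⟩ hφ
  have hU : S_UFD := Pool.Agent.Y165.CL.ufd
  have hS : S_SEP := Pool.Agent.Y718.CL.Sep.sep
  have h0 : S_EX0 := Pool.Agent.Y944.CL.ex0 Pool.Agent.Y151.CL.loc'
  have h1 : S_EX1 := Pool.Agent.Y944.CL.ex1 Pool.Agent.Y151.CL.loc'
  have hM : S_SMT := Pool.Agent.Y362.CL.smt
  -- the embeddings
  let φ : ∀ (p : ℕ) [Fact p.Prime], ℚ_[p] →+* ℂ := fun p _ => (Pool.Agent.Y447.CL.emb p).some
  have hex : ∀ (p : ℕ) [Fact p.Prime] (m : ℕ) (G : MvPolynomial (Fin (m + 1)) ℚ_[p]),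
      ∃ E : Set (Fin (m + 1) → ℚ_[p]), E.Finite ∧ (2 ≤ m → G.IsHomogeneous 4 → SmoothForm G →
        ∀ x : Fin (m + 1) → ℚ_[p], eval x G ≠ 0 → Bad G x → ∃ e ∈ E, ∃ c : ℚ_[p], x = c • e) := by
    intro p _ m G
    by_cases h : 2 ≤ m ∧ G.IsHomogeneous 4 ∧ SmoothForm G
    · obtain ⟨E, hE1, hE2⟩ := bad_set h0 h1 (φ p) h.1 h.2.1 (hM ℚ_[p] (m + 1) G h.2.2 (φ p))
      exact ⟨E, hE1, fun _ _ _ => hE2⟩
    · exact ⟨∅, Set.finite_empty, fun a b c => absurd ⟨a, b, c⟩ h⟩
  choose E hE1 hE2 using hex
  refine ⟨E, fun p _ m G => hE1 p m G, ?_⟩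
  intro K _ _ r n d hn hd f hf ι _ _ p _ hinj σ
  -- the local statement
  have hloc : ∀ (v : ι) (T : (Vars n → ℚ_[p v]) × ℚ_[p v]), OnCover (map (σ v) f) T →
      T.2 ≠ 0 → ∀ i, d i = 4 → 2 ≤ n i → SmoothForm (restriction (map (σ v) f) T.1 i) →
      (∀ e ∈ E (p v) (n i) (restriction (map (σ v) f) T.1 i), ∀ c : ℚ_[p v],
        (fun j => T.1 ⟨i, j⟩) ≠ c • e) →
      ∃ e, IOt (th (Gi (map (σ v) f) T.1 i) e (fun j => T.1 ⟨i, j⟩) T.2) := by
    intro v T hT hw i h4 hni hsm hb
    have hhom : (Gi (map (σ v) f) T.1 i).IsHomogeneous 4 := by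
      have := Gi_hom (MH.map (show MH d f from hf) (σ v)) T.1 i
      rwa [h4] at this
    have hon : onX (Gi (map (σ v) f) T.1 i) (fun j => T.1 ⟨i, j⟩) T.2 := onX_Gi hT i
    refine loc_io hU Pool.Agent.Y447.CL.bai Pool.Agent.Y447.CL.lin hS (φ (p v))
      (by omega) hhom (hM ℚ_[p v] (n i + 1) _ hsm (φ (p v))) hon hw fun hbad => ?_
    obtain ⟨e, he, c, hc⟩ := hE2 (p v) (n i) (restriction (map (σ v) f) T.1 i) hni hhom hsm
      (fun j => T.1 ⟨i, j⟩) (by
        have h5 : T.2 ^ 2 = eval (fun j => T.1 ⟨i, j⟩) (restriction (map (σ v) f) T.1 i) := hon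
        rw [← h5]
        exact pow_ne_zero 2 hw) hbad
    exact hb e he c hc
  have hne : ∀ {F : Type} [Field F] (g : MvPolynomial (Vars n) F) (T : (Vars n → F) × F),
      OnCover g T → T.2 ≠ 0 → eval T.1 g ≠ 0 := by
    intro F _ g T hT hw
    rw [← (show T.2 ^ 2 = eval T.1 g from hT)]
    exact pow_ne_zero 2 hw
  refine ⟨fun T hT hw hc => ?_, fun τ T hT hw hw' hc => ?_⟩
  · have hon := on_of_closure hT
    refine fill_p σ hT ?_
    -- the moves in the directions of one factor
    have hconic : ∀ k, d k = 2 → ∀ e : Fin (n k + 1) → K,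
        MvL σ f (hat k e) (fun v => (T v).1) (fun v => (T v).2) := by
      intro k hk e
      refine mv_conicL (dn_p hinj σ) (fun z => ?_) hw
      have := deg_hat (show MH d f from hf) z k e
      rwa [hk] at this
    have hmv : ∀ i, ∀ e : Fin (n i + 1) → K,
        MvL σ f (hat i e) (fun v => (T v).1) (fun v => (T v).2) := by
      intro i
      rcases hd i with hi | hi
      · exact hconic i hi
      obtain ⟨k, hk, hch⟩ := hc i hi
      have hstart : ∀ e : Fin (n k + 1) → K,
          MvL σ f (hat k e) (fun v => (T v).1) (fun v => (T v).2) := by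
        rcases hd k with hk2 | hk4
        · exact hconic k hk2
        · have hk := hk.resolve_left (by omega)
          exact Pool.Agent.K6.H96.MX.free_p hinj σ (show MH d f from hf) hk4 hon hw fun v =>
            hloc v (T v) (hon v) (hw v) k hk4 (hk v).1 (hk v).2.1 (hk v).2.2
      clear hk hi
      induction hch with
      | refl => exact hstart
      | @tail a b _ hab ih =>
        rcases hd b with hb | hb
        · exact hconic b hb
        · exact Pool.Agent.K6.H96.MX.step (dn_p hinj σ) (hw_p hinj σ) (show MH d f from hf) hon hw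
            hb.le ih fun v => srv_of (φ (p v)) hn hd (MH.map (show MH d f from hf) (σ v))
              (hne _ (T v) (hon v) (hw v)) hb (hab v)
    exact int_of_mvL hon hw fun ⟨i, j⟩ => by rw [hat_single]; exact hmv i _
  · obtain ⟨hon1, hon2⟩ := on_of_closureR hT
    let x : ∀ v : Option ι, Vars n → Lv p v := fun v =>
      match v with
      | none => T.1.1
      | some i => (T.2 i).1
    let y : ∀ v : Option ι, Lv p v := fun v =>
      match v with
      | none => T.1.2
      | some i => (T.2 i).2
    have hon : ∀ v, onX (map (sv σ τ v) f) (x v) (y v) := by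
      rintro (_ | v)
      · exact hon1
      · exact hon2 v
    have hwv : ∀ v, y v ≠ 0 := by
      rintro (_ | v)
      · exact hw
      · exact hw' v
    refine fill_r σ τ hT (x := x) (y := y) rfl rfl (fun _ => rfl) (fun _ => rfl) ?_
    have hconic : ∀ k, d k = 2 → ∀ e : Fin (n k + 1) → K, MvL (sv σ τ) f (hat k e) x y := by
      intro k hk e
      refine mv_conicL (dn_all hinj σ τ) (fun z => ?_) hwv
      have := deg_hat (show MH d f from hf) z k e
      rwa [hk] at this
    have hmv : ∀ i, ∀ e : Fin (n i + 1) → K, MvL (sv σ τ) f (hat i e) x y := by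
      intro i
      rcases hd i with hi | hi
      · exact hconic i hi
      obtain ⟨k, hk, hch⟩ := hc i hi
      have hstart : ∀ e : Fin (n k + 1) → K, MvL (sv σ τ) f (hat k e) x y := by
        rcases hd k with hk2 | hk4
        · exact hconic k hk2
        · obtain ⟨hr, hk⟩ := hk.resolve_left (by omega)
          refine Pool.Agent.K6.H96.MX.free_r hinj σ τ (show MH d f from hf) hk4 hon hwv ?_
            fun v => hloc v (T.2 v) (hon2 v) (hw' v) k hk4 (hk v).1 (hk v).2.1 (hk v).2.2
          have hhom : (Gi (map τ f) T.1.1 k).IsHomogeneous 4 := by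
            have := Gi_hom (MH.map (show MH d f from hf) τ) T.1.1 k
            rwa [hk4] at this
          exact exists_Tq hS Complex.ofRealHom (hn k) hhom
            (hM ℝ (n k + 1) _ hr Complex.ofRealHom)
            (by rw [Gi_self]; exact hne _ T.1 hon1 hw)
      clear hk hi
      induction hch with
      | refl => exact hstart
      | @tail a b _ hab ih =>
        rcases hd b with hb | hb
        · exact hconic b hb
        · refine Pool.Agent.K6.H96.MX.step (dn_all hinj σ τ) (hw_all hinj σ τ)
            (show MH d f from hf) hon hwv hb.le ih ?_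
          rintro (_ | v)
          · exact srv_of (F := ℝ) Complex.ofRealHom hn hd (MH.map (show MH d f from hf) τ)
              (hne _ T.1 hon1 hw) hb hab.1
          · exact srv_of (F := ℚ_[p v]) (φ (p v)) hn hd (MH.map (show MH d f from hf) (σ v))
              (hne _ (T.2 v) (hon2 v) (hw' v)) hb (hab.2 v)
    exact int_of_mvL hon hwv fun ⟨i, j⟩ => by rw [hat_single]; exact hmv i _

end Pool.Agent.Results.MP_83e36b_nt.DoubleCoversOfProducts
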