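import Pool.Agent.K6.H43.GH.Asm2
import Pool.Agent.K6.H43.GH.One
import Pool.Agent.K6.H43.GH.Two
import Pool.Agent.K6.H43.GH.Qua
import Pool.Agent.K6.H43.GH.Qgc
import Pool.Agent.K6.H43.GH.Pln
import Pool.Agent.K6.H43.GH.Cvg
import Pool.Agent.K6.H43.GH.Nea
import Pool.Agent.K6.H43.GH.Dsc
import Pool.Agent.K6.H43.GH.Prm
import Pool.Agent.K6.H43.GH.Lcp
import Pool.Agent.K6.H43.GH.Npl
import Pool.Agent.K6.H43.GH.Spn
import Pool.Agent.K6.H43.GH.Iso
import Pool.Agent.K6.H43.GH.Dg2
import Pool.Agent.K6.H43.GH.Hy2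
import Pool.Agent.K6.H43.GH.Np2
import Pool.Agent.K6.H43.GH.Conic

/-!
# Quadric bundles over products of projective spaces with coefficients of degrees at most three: the
# closure of the rational points is open outside a proper closed subset

`K` is a field of characteristic zero, for example a number field, and `X` is the hypersurface
`∑ A_{kl}(u) z_k z_l = 0` of multidegree `(2; d₁, …, d_r)` in `ℙᵃ × ℙ^{n₁} × … × ℙ^{n_r}`, with
`a ≥ 2`, `r ≥ 1` and `d_i ≤ 3`. So `X` is a quadric bundle over `ℙ^{n₁} × … × ℙ^{n_r}`, and rationally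
connected if it is smooth. The anticanonical class has the multidegree `(a - 1; n_i + 1 - d_i)`, so
it is a Fano variety only if `n_i ≥ d_i` for all `i`. The simplest new examples are the conic bundles
of bidegree `(2, 3)` in `ℙ² × ℙ²` (the coefficients are plane cubics, the discriminant has degree
`9`, `X` is not Fano) and their analogues with more factors, and the Fano hypersurfaces of bidegree
`(2, 3)` in `ℙ² × ℙ³`.

We consider finite nonempty sets of `p`-adic places of degree one (embeddings of `K` into `ℚ_p`)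
over different primes `p`, with or without a real place; for `K = ℚ` these are all the finite sets
of places which contain a finite place.

For a point `u` of the product let `Q_u` be the quadric `∑ A_{kl}(u) z_k z_l = 0`, and for `z` in
`Q_u` let `G_z` be the form `∑ A_{kl} z_k z_l` in the variables of the `i`-th factor, the other
variables having the values of `u`. So `G_z = 0` is a cubic hypersurface through `u`, if `d_i = 3`.

**Theorem.** Suppose that the equation of `X` is irreducible, and that for each `i` there are, over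
the algebraic closure, a point `u` with smooth `Q_u`, a plane through its component `q` in the
`i`-th factor, spanned by `q`, `e` and `e'`, and points `z, z'` of `Q_u`, which are not conjugate
with respect to `Q_u`, with the following properties. If `d_i ≤ 2`, then the differentials of `G_z`
and `G_{z'}` at `q` are linearly independent (on `e` and `e'`). If `d_i = 3`, then the plane cubic
`G_z = 0` is smooth, `q` is not a flex of it, and its tangent at `q` contains neither `e` nor `e'`,
while the plane cubic `G_{z'} = 0` has at `q` a flex with the tangent in the direction `e`. Then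
there is a proper closed subset `Z` of `X`, given by a polynomial `N` over `K` which is not
divisible by the equation and depends only on `X`, such that for every such set of places the
closure of `X(K)` in the product of the `X(K_v)` is a neighbourhood of each of its points
`T = (T_v)` for which no `T_v` belongs to `Z`.

(In the formal statement we work with the coordinates `(z, u)`, that is with the cone over `X`. The
conditions say that the tangent spaces and the flexes of the cubics `G_z`, `z ∈ Q_u`, are not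
constant. They are open and satisfied by general `X` for all `a, n_i ≥ 2`, which we do not prove;
for `a = n = 2` they hold for example for
`(x³ + x² s + y³) z₀² - x³ z₁² + (x³ + x² y + x² s + x y² + y³ + s³) z₂²` with
`q = (1, 0, 0)`, `e = (0, 1, 0)`, `e' = (0, 0, 1)`, `z = (0, 1, 1)` and `z' = (1, 1, 0)`.)

Idea of the proof. Let `(z, u)` be a rational point. As `Q_u` has a rational point, it is a rational
variety and has weak approximation, so we can move in `Q_u`. We can also fix `z` and move `u` in
the `i`-th factor, on a plane section of the cubic hypersurface `G_z = 0` through `u`. On this plane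
cubic `C` we use the class `h - 3 P` (`h` a line section, `P` the given point) on its Jacobian. The
projection from `P` makes `C` a double cover of the line with four branch points and with two
rational points over the image of the tangent at `P`, and their difference is this class. Where it
is of infinite order, its multiples give approximations on `C` close to `P`, uniformly in `P`, by
the theorem of the earlier files (`Pool.Agent.Y720`) for double covers. The class is zero if and
only if `P` is a flex of `C`. We consider the points `z = z(t)` of rational curves in `Q_u`. If the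
curve passes (in the algebraic closure) through a point `z'` such that `P` is a flex of the cubic
of `z'`, then the class has there a pole, and so it is of infinite order for all but countably many
`t`, also in the neighbourhoods of the local points. So we can move `u` in the planes of general
directions. The tangents of the cubics of `z` and of `z'` are different, and by the theorem on
implicit functions we get all the directions of the plane, and then all the directions of all the
factors. If `d_i ≤ 2`, the conics or lines `C` are rational and have weak approximation. The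
genericity of the planes and of the curves is described by a polynomial `G` over `K` in the point
`(z, u)` and the parameters, and `N` is one of its coefficients.

The pieces of the proof were formalised together with helper38, helper44, helper52, helper55,
helper59, helper69, helper70, helper75, helper96 and helper98 (`Pool/Agent/K6/H43/GH`).
-/

set_option autoImplicit false

namespace Pool.Agent.Results.MP_83e36b_nt.QuadricBundlesOverProducts

open MvPolynomial Pool.Agent.Y720.MZ Pool.Agent.K6.H43.GH

/-- The variables `u_{i,j}`, `0 ≤ j ≤ n_i`, of the `r` factors `ℙ^{n_i}`. -/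
abbrev Vars {r : ℕ} (n : Fin r → ℕ) : Type := (i : Fin r) × Fin (n i + 1)

/-- The polynomial is a form of degree `d i` in the variables of the `i`-th factor. -/
def MultiHomogeneous {r : ℕ} {n : Fin r → ℕ} (d : Fin r → ℕ) {F : Type} [Field F]
    (f : MvPolynomial (Vars n) F) : Prop :=
  ∀ m ∈ f.support, ∀ i, ∑ j, m ⟨i, j⟩ = d i

/-- The matrix of the coefficients, over a larger field. -/
noncomputable def extend {K F : Type} [Field K] [Field F] (φ : K →+* F) {a r : ℕ} {n : Fin r → ℕ}
    (A : Fin (a + 1) → Fin (a + 1) → MvPolynomial (Vars n) K) :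
    Fin (a + 1) → Fin (a + 1) → MvPolynomial (Vars n) F :=
  fun k l => map φ (A k l)

/-- The equation `∑ A_{kl}(u) z_k z_l` of the quadric bundle. -/
noncomputable def equation {K : Type} [Field K] {a r : ℕ} {n : Fin r → ℕ}
    (A : Fin (a + 1) → Fin (a + 1) → MvPolynomial (Vars n) K) :
    MvPolynomial (Fin (a + 1) ⊕ Vars n) K :=
  ∑ k, ∑ l, rename Sum.inr (A k l) * X (Sum.inl k) * X (Sum.inl l)

/-- The point lies on the hypersurface `f = 0`. -/
def OnHypersurface {F γ : Type} [Field F] (f : MvPolynomial γ F) (P : γ → F) : Prop :=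
  eval P f = 0

/-- The image of a point under an embedding of fields. -/
def image {K F γ : Type} [Field K] [Field F] (φ : K →+* F) (P : γ → K) : γ → F :=
  fun c => φ (P c)

/-- The closure of the `K`-points in the product of the sets of the `ℚ_[p v]`-points. -/
def Closure {K γ : Type} [Field K] (f : MvPolynomial γ K) {ι : Type} {p : ι → ℕ}
    [∀ v, Fact (p v).Prime] (σ : ∀ v, K →+* ℚ_[p v]) : Set (∀ v, γ → ℚ_[p v]) :=
  closure {S | ∃ P, OnHypersurface f P ∧ S = fun v => image (σ v) P}

/-- The closure of the `K`-points in the product of the set of the real points and of the sets of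
the `ℚ_[p v]`-points. -/
def ClosureReal {K γ : Type} [Field K] (f : MvPolynomial γ K) {ι : Type} {p : ι → ℕ}
    [∀ v, Fact (p v).Prime] (σ : ∀ v, K →+* ℚ_[p v]) (τ : K →+* ℝ) :
    Set ((γ → ℝ) × ∀ v, γ → ℚ_[p v]) :=
  closure {S | ∃ P, OnHypersurface f P ∧ S = (image τ P, fun v => image (σ v) P)}

/-- The closure of the `K`-points is a neighbourhood of `T`. -/
def OpenAt {K γ : Type} [Field K] (f : MvPolynomial γ K) {ι : Type} {p : ι → ℕ}
    [∀ v, Fact (p v).Prime] (σ : ∀ v, K →+* ℚ_[p v]) (T : ∀ v, γ → ℚ_[p v]) : Prop :=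
  ∃ U ∈ nhds T, ∀ S ∈ U, (∀ v, OnHypersurface (map (σ v) f) (S v)) → S ∈ Closure f σ

/-- The same with a real place. -/
def OpenAtReal {K γ : Type} [Field K] (f : MvPolynomial γ K) {ι : Type} {p : ι → ℕ}
    [∀ v, Fact (p v).Prime] (σ : ∀ v, K →+* ℚ_[p v]) (τ : K →+* ℝ)
    (T : (γ → ℝ) × ∀ v, γ → ℚ_[p v]) : Prop :=
  ∃ U ∈ nhds T, ∀ S ∈ U, OnHypersurface (map τ f) S.1 →
    (∀ v, OnHypersurface (map (σ v) f) (S.2 v)) → S ∈ ClosureReal f σ τ

/-- For all finite nonempty sets of `p`-adic places of degree one, with or without a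
real place, the closure of the `K`-points is a neighbourhood of each of its points where `N` does
not vanish. -/
def OpenOutside {K γ : Type} [Field K] (f N : MvPolynomial γ K) : Prop :=
  ∀ (ι : Type) [Finite ι] [Nonempty ι] (p : ι → ℕ) [∀ v, Fact (p v).Prime],
    Function.Injective p → ∀ σ : ∀ v, K →+* ℚ_[p v],
      (∀ T ∈ Closure f σ, (∀ v, eval (T v) (map (σ v) N) ≠ 0) → OpenAt f σ T) ∧
      ∀ (τ : K →+* ℝ), ∀ T ∈ ClosureReal f σ τ, eval T.1 (map τ N) ≠ 0 →
        (∀ v, eval (T.2 v) (map (σ v) N) ≠ 0) → OpenAtReal f σ τ T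

/-- The bilinear form of the quadric `Q_u` over the point `u`. -/
noncomputable def bilinear {F : Type} [Field F] {a r : ℕ} {n : Fin r → ℕ}
    (A : Fin (a + 1) → Fin (a + 1) → MvPolynomial (Vars n) F) (u : Vars n → F)
    (z z' : Fin (a + 1) → F) : F :=
  ∑ k, ∑ l, eval u (A k l) * z k * z' l

/-- The form in the variables of the `i`-th factor, which one gets by inserting the coordinates of
the point `u` for the other variables. -/
noncomputable def restriction {r : ℕ} {n : Fin r → ℕ} {F : Type} [Field F]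
    (f : MvPolynomial (Vars n) F) (u : Vars n → F) (i : Fin r) :
    MvPolynomial (Fin (n i + 1)) F :=
  aeval (fun c : Vars n => Function.update
    (fun (k : Fin r) (j : Fin (n k + 1)) => (C (u ⟨k, j⟩) : MvPolynomial (Fin (n i + 1)) F)) i
    (fun j => (X j : MvPolynomial (Fin (n i + 1)) F)) c.1 c.2) f

/-- The form `G_z = ∑ A_{kl} z_k z_l` in the variables of the `i`-th factor; the other variables
have the values `u`. -/
noncomputable def sliceForm {F : Type} [Field F] {a r : ℕ} {n : Fin r → ℕ}
    (A : Fin (a + 1) → Fin (a + 1) → MvPolynomial (Vars n) F) (u : Vars n → F)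
    (z : Fin (a + 1) → F) (i : Fin r) : MvPolynomial (Fin (n i + 1)) F :=
  ∑ k, ∑ l, C (z k * z l) * restriction (A k l) u i

/-- The polynomial `G(q + t e)` in `t`. -/
noncomputable def onLine {F : Type} [Field F] {m : ℕ} (G : MvPolynomial (Fin m) F)
    (q e : Fin m → F) : Polynomial F :=
  aeval (fun j => Polynomial.C (q j) + Polynomial.C (e j) * Polynomial.X) G

/-- The form `G(x₀ q + x₁ e + x₂ e')`. -/
noncomputable def onPlane {F : Type} [Field F] {m : ℕ} (G : MvPolynomial (Fin m) F)
    (q e e' : Fin m → F) : MvPolynomial (Fin 3) F :=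
  aeval (fun j => C (q j) * X 0 + C (e j) * X 1 + C (e' j) * X 2) G

/-- The plane curve is smooth (over an algebraically closed field). -/
def SmoothCurve {F : Type} [Field F] (G : MvPolynomial (Fin 3) F) : Prop :=
  ∀ y : Fin 3 → F, (∀ j, eval y (pderiv j G) = 0) → y = 0

/-- **The flexes in the `i`-th factor are not fixed.** There are a geometric point `u` whose quadric
`Q_u` is smooth, a plane through its component `q` in the `i`-th factor, spanned by `q`, `e` and
`e'`, and two points `z`, `z'` of `Q_u`, whose line is not contained in `Q_u`, such that: `G_z`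
cuts out a smooth cubic curve in the plane, no line of the plane meets it in `q` with multiplicity
three or more, and the lines from `q` in the directions `e` and `e'` are not tangent to it; while
`G_{z'}` meets the line in the direction `e` only in `q`, with multiplicity three, and is not
tangent to the line in the direction `e'`. -/
def MovingFlex {K : Type} [Field K] {a r : ℕ} {n : Fin r → ℕ}
    (A : Fin (a + 1) → Fin (a + 1) → MvPolynomial (Vars n) K) (i : Fin r) : Prop :=
  ∃ (u : Vars n → AlgebraicClosure K) (e e' : Fin (n i + 1) → AlgebraicClosure K)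
    (z z' : Fin (a + 1) → AlgebraicClosure K)
    (B : Fin (a + 1) → Fin (a + 1) → MvPolynomial (Vars n) (AlgebraicClosure K))
    (q : Fin (n i + 1) → AlgebraicClosure K),
    B = extend (algebraMap K (AlgebraicClosure K)) A ∧ (q = fun j => u ⟨i, j⟩) ∧
    (Matrix.of fun k l => eval u (B k l)).det ≠ 0 ∧
    bilinear B u z z = 0 ∧ bilinear B u z' z' = 0 ∧ bilinear B u z z' ≠ 0 ∧
    SmoothCurve (onPlane (sliceForm B u z i) q e e') ∧
    (∀ s t : AlgebraicClosure K, (s ≠ 0 ∨ t ≠ 0) →
      ¬ Polynomial.X ^ 3 ∣ onLine (sliceForm B u z i) q (fun j => s * e j + t * e' j)) ∧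
    (onLine (sliceForm B u z i) q e).coeff 1 ≠ 0 ∧
    (onLine (sliceForm B u z i) q e').coeff 1 ≠ 0 ∧
    (∃ c, c ≠ 0 ∧ onLine (sliceForm B u z' i) q e = Polynomial.C c * Polynomial.X ^ 3) ∧
    (onLine (sliceForm B u z' i) q e').coeff 1 ≠ 0

/-- **The tangent hyperplanes in the `i`-th factor are not fixed.** There are a geometric point `u`
whose quadric `Q_u` is smooth and two points `z`, `z'` of `Q_u`, whose line is not contained in
`Q_u`, such that the differentials of `G_z` and `G_{z'}` at the component `q` of `u` in the `i`-th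
factor are linearly independent (on the directions `e` and `e'`). -/
def MovingTangent {K : Type} [Field K] {a r : ℕ} {n : Fin r → ℕ}
    (A : Fin (a + 1) → Fin (a + 1) → MvPolynomial (Vars n) K) (i : Fin r) : Prop :=
  ∃ (u : Vars n → AlgebraicClosure K) (e e' : Fin (n i + 1) → AlgebraicClosure K)
    (z z' : Fin (a + 1) → AlgebraicClosure K)
    (B : Fin (a + 1) → Fin (a + 1) → MvPolynomial (Vars n) (AlgebraicClosure K))
    (q : Fin (n i + 1) → AlgebraicClosure K),
    B = extend (algebraMap K (AlgebraicClosure K)) A ∧ (q = fun j => u ⟨i, j⟩) ∧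
    (Matrix.of fun k l => eval u (B k l)).det ≠ 0 ∧
    bilinear B u z z = 0 ∧ bilinear B u z' z' = 0 ∧ bilinear B u z z' ≠ 0 ∧
    (onLine (sliceForm B u z i) q e).coeff 1 * (onLine (sliceForm B u z' i) q e').coeff 1 -
      (onLine (sliceForm B u z i) q e').coeff 1 * (onLine (sliceForm B u z' i) q e).coeff 1 ≠ 0

section aux

variable {K : Type} [Field K] {α β : Type} [Fintype α] [Fintype β]

omit [Fintype β] in
lemma on_iff {F : Type} [Field F] (φ : K →+* F) (A : α → α → MvPolynomial β K)
    (P : α ⊕ β → F) : OnHypersurface (map φ (Fq A)) P ↔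
      Bf (mC φ A) (fun b => P (Sum.inr b)) (fun a => P (Sum.inl a)) (fun a => P (Sum.inl a)) =
        0 := by
  unfold OnHypersurface
  rw [eval_map, ← Fq_eval]
  have : (Sum.elim (fun a => P (Sum.inl a)) fun b => P (Sum.inr b)) = P := by
    funext c
    rcases c with c | c <;> rfl
  rw [this]

omit [Fintype β] in
lemma on_iff' (A : α → α → MvPolynomial β K)
    (P : α ⊕ β → K) : OnHypersurface (Fq A) P ↔
      Bf A (fun b => P (Sum.inr b)) (fun a => P (Sum.inl a)) (fun a => P (Sum.inl a)) = 0 := by
  have := on_iff (RingHom.id K) A P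
  rwa [map_id, mC_id] at this

omit [Fintype α] [Fintype β] in
lemma dist_image [Fintype α] [Fintype β] {F : Type} [NormedField F] (φ : K →+* F)
    (P : α ⊕ β → K) (T : α ⊕ β → F) {η : ℝ} (hη : 0 < η) : dist T (image φ P) < η ↔
      (∀ a, ‖φ (P (Sum.inl a)) - T (Sum.inl a)‖ < η) ∧
        ∀ b, ‖φ (P (Sum.inr b)) - T (Sum.inr b)‖ < η := by
  rw [dist_comm, dist_pi_lt_iff hη]
  simp only [dist_eq_norm, image]
  constructor
  · exact fun h => ⟨fun a => h _, fun b => h _⟩
  · rintro ⟨h1, h2⟩ (c | c)
    · exact h1 c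
    · exact h2 c

variable {ι : Type} [Finite ι] {p : ι → ℕ} [hp : ∀ i, Fact (p i).Prime]

lemma fill_p (σ : ∀ i, K →+* ℚ_[p i]) {A : α → α → MvPolynomial β K}
    {T : ∀ i, α ⊕ β → ℚ_[p i]} (hcl : T ∈ Closure (Fq A) σ)
    (hI : IntG σ A (fun i a => T i (Sum.inl a)) (fun i b => T i (Sum.inr b))) :
    OpenAt (Fq A) σ T := by
  have : Fintype ι := Fintype.ofFinite ι
  obtain ⟨ε, hε, hint⟩ := hI
  obtain ⟨_, ⟨P, hP, rfl⟩, h2⟩ := Metric.mem_closure_iff.1 hcl ε hε
  rw [dist_pi_lt_iff hε] at h2
  refine ⟨Metric.ball T ε, Metric.ball_mem_nhds T hε, fun S hS hSX => ?_⟩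
  rw [Metric.mem_ball, dist_pi_lt_iff hε] at hS
  rw [Closure, Metric.mem_closure_iff]
  intro η hη
  have hS' : ∀ i c, ‖S i c - T i c‖ < ε := fun i c => by
    have h3 := (dist_pi_lt_iff hε).1 (hS i) c
    rwa [dist_eq_norm] at h3
  obtain ⟨x', u', k1, k2, k3⟩ := hint (fun a => P (Sum.inl a)) (fun b => P (Sum.inr b))
    ((on_iff' A P).1 hP) (fun i a => ((dist_image (σ i) P (T i) hε).1 (h2 i)).1 a)
    (fun i b => ((dist_image (σ i) P (T i) hε).1 (h2 i)).2 b)
    (fun i a => S i (Sum.inl a)) (fun i b => S i (Sum.inr b))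
    (fun i => (on_iff (σ i) A (S i)).1 (hSX i)) (fun i a => hS' i _) (fun i b => hS' i _) η hη
  refine ⟨_, ⟨Sum.elim x' u', (on_iff' A _).2 k1, rfl⟩, ?_⟩
  rw [dist_pi_lt_iff hη]
  exact fun i => (dist_image (σ i) _ (S i) hη).2 ⟨fun a => k2 i a, fun b => k3 i b⟩

lemma fill_r (σ : ∀ i, K →+* ℚ_[p i]) (τ : K →+* ℝ) {A : α → α → MvPolynomial β K}
    {T : (α ⊕ β → ℝ) × ∀ i, α ⊕ β → ℚ_[p i]}
    (hcl : T ∈ ClosureReal (Fq A) σ τ) {x : ∀ v : Option ι, α → Lv p v}
    {w : ∀ v : Option ι, β → Lv p v}
    (hx0 : x none = fun a => T.1 (Sum.inl a)) (hw0 : w none = fun b => T.1 (Sum.inr b))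
    (hx : ∀ i, x (some i) = fun a => T.2 i (Sum.inl a))
    (hw : ∀ i, w (some i) = fun b => T.2 i (Sum.inr b))
    (hI : IntG (sv σ τ) A x w) : OpenAtReal (Fq A) σ τ T := by
  have : Fintype ι := Fintype.ofFinite ι
  obtain ⟨ε, hε, hint⟩ := hI
  obtain ⟨_, ⟨P, hP, rfl⟩, h2⟩ := Metric.mem_closure_iff.1 hcl ε hε
  rw [Prod.dist_eq, max_lt_iff] at h2
  have h2a : dist T.1 (image τ P) < ε := h2.1
  have h2b : ∀ i, dist (T.2 i) (image (σ i) P) < ε := (dist_pi_lt_iff hε).1 h2.2
  refine ⟨Metric.ball T ε, Metric.ball_mem_nhds T hε, fun S hS hSr hSX => ?_⟩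
  rw [Metric.mem_ball, Prod.dist_eq, max_lt_iff] at hS
  have hSb : ∀ i, dist (S.2 i) (T.2 i) < ε := (dist_pi_lt_iff hε).1 hS.2
  rw [ClosureReal, Metric.mem_closure_iff]
  intro η hη
  have hS1 : ∀ c, ‖S.1 c - T.1 c‖ < ε := fun c => by
    have h3 := (dist_pi_lt_iff hε).1 hS.1 c
    rwa [dist_eq_norm] at h3
  have hS2 : ∀ i c, ‖S.2 i c - T.2 i c‖ < ε := fun i c => by
    have h3 := (dist_pi_lt_iff hε).1 (hSb i) c
    rwa [dist_eq_norm] at h3
  let x' : ∀ v : Option ι, α → Lv p v := fun v =>
    match v with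
    | none => fun a => S.1 (Sum.inl a)
    | some i => fun a => S.2 i (Sum.inl a)
  let w' : ∀ v : Option ι, β → Lv p v := fun v =>
    match v with
    | none => fun b => S.1 (Sum.inr b)
    | some i => fun b => S.2 i (Sum.inr b)
  obtain ⟨z, u, k1, k2, k3⟩ := hint (fun a => P (Sum.inl a)) (fun b => P (Sum.inr b))
    ((on_iff' A P).1 hP)
    (by
      rintro (_ | i) a
      · rw [hx0]
        exact ((dist_image τ P T.1 hε).1 h2a).1 a
      · rw [hx]
        exact ((dist_image (σ i) P (T.2 i) hε).1 (h2b i)).1 a)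
    (by
      rintro (_ | i) b
      · rw [hw0]
        exact ((dist_image τ P T.1 hε).1 h2a).2 b
      · rw [hw]
        exact ((dist_image (σ i) P (T.2 i) hε).1 (h2b i)).2 b)
    x' w'
    (by
      rintro (_ | i)
      · exact (on_iff τ A S.1).1 hSr
      · exact (on_iff (σ i) A (S.2 i)).1 (hSX i))
    (by
      rintro (_ | i) a
      · rw [hx0]
        exact hS1 _
      · rw [hx]
        exact hS2 i _)
    (by
      rintro (_ | i) b
      · rw [hw0]
        exact hS1 _
      · rw [hw]
        exact hS2 i _) η hη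
  refine ⟨_, ⟨Sum.elim z u, (on_iff' A _).2 k1, rfl⟩, ?_⟩
  rw [Prod.dist_eq]
  refine max_lt ?_ ?_
  · exact (dist_image τ _ S.1 hη).2 ⟨fun a => k2 none a, fun b => k3 none b⟩
  · rw [dist_pi_lt_iff hη]
    exact fun i => (dist_image (σ i) _ (S.2 i) hη).2 ⟨fun a => k2 (some i) a, fun b =>
      k3 (some i) b⟩

end aux

section closed

variable {K γ : Type} [Field K] {f : MvPolynomial γ K} {ι : Type} {p : ι → ℕ}
  [∀ i, Fact (p i).Prime]

lemma on_image {F : Type} [Field F] (φ : K →+* F) {P : γ → K} (h : OnHypersurface f P) :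
    OnHypersurface (map φ f) (image φ P) := by
  unfold OnHypersurface at *
  change eval (fun c => φ (P c)) (map φ f) = 0
  rw [eval_map', h, map_zero]

lemma isClosed_on {F : Type} [NormedField F] (g : MvPolynomial γ F) :
    IsClosed {P : γ → F | OnHypersurface g P} :=
  isClosed_eq (MvPolynomial.continuous_eval g) continuous_const

lemma on_of_closure {σ : ∀ i, K →+* ℚ_[p i]} {T : ∀ i, γ → ℚ_[p i]}
    (hT : T ∈ Closure f σ) (i : ι) : OnHypersurface (map (σ i) f) (T i) := by
  have h1 : IsClosed {T : ∀ i, γ → ℚ_[p i] | OnHypersurface (map (σ i) f) (T i)} :=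
    (isClosed_on (map (σ i) f)).preimage (f := fun T : ∀ i, γ → ℚ_[p i] => T i)
      (continuous_apply i)
  refine closure_minimal ?_ h1 hT
  rintro _ ⟨P, hP, rfl⟩
  exact on_image (σ i) hP

lemma on_of_closureR {σ : ∀ i, K →+* ℚ_[p i]} {τ : K →+* ℝ}
    {T : (γ → ℝ) × ∀ i, γ → ℚ_[p i]} (hT : T ∈ ClosureReal f σ τ) :
    OnHypersurface (map τ f) T.1 ∧ ∀ i, OnHypersurface (map (σ i) f) (T.2 i) := by
  constructor
  · have h1 : IsClosed {T : (γ → ℝ) × ∀ i, γ → ℚ_[p i] | OnHypersurface (map τ f) T.1} :=
      (isClosed_on (map τ f)).preimage continuous_fst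
    refine closure_minimal ?_ h1 hT
    rintro _ ⟨P, hP, rfl⟩
    exact on_image τ hP
  · intro i
    have h1 : IsClosed {T : (γ → ℝ) × ∀ i, γ → ℚ_[p i] |
        OnHypersurface (map (σ i) f) (T.2 i)} :=
      (isClosed_on (map (σ i) f)).preimage
        (f := fun T : (γ → ℝ) × ∀ i, γ → ℚ_[p i] => T.2 i)
        ((continuous_apply i).comp continuous_snd)
    refine closure_minimal ?_ h1 hT
    rintro _ ⟨P, hP, rfl⟩
    exact on_image (σ i) hP

end closed

/-- the geometric point in terms of the coefficients of the plane cubics -/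
lemma geo_of (hH : S_HY2) (hS : S_DSC) (hI : S_ISO) {K : Type} [Field K] [CharZero K] {a r : ℕ}
    (ha : 2 ≤ a) {n : Fin r → ℕ} {A : Fin (a + 1) → Fin (a + 1) → MvPolynomial (Vars n) K}
    (hA : ∀ k l, A k l = A l k) {d : Fin r → ℕ} (hM : ∀ k l, MultiHomogeneous d (A k l))
    {i : Fin r} (hd : d i = 3) (h : MovingFlex A i) :
    ∃ (u : Vars n → AlgebraicClosure K) (ε ε' : Fin (n i + 1) → AlgebraicClosure K)
      (z₀ z₁ w : Fin (a + 1) → AlgebraicClosure K),
      Geo (mC (algebraMap K (AlgebraicClosure K)) A) u (hat i ε) (hat i ε') z₀ z₁ w := by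
  classical
  obtain ⟨u, e, e', z, z', B, q, rfl, rfl, h1, h2, h3, h4, h5, h6, h7, h8, ⟨c, hc, h9⟩, h10⟩ := h
  have hM' : ∀ k l, MH d (mC (algebraMap K (AlgebraicClosure K)) A k l) := fun k l =>
    MHD_map (show MH d (A k l) from hM k l) _
  have hz : z ≠ 0 := by
    rintro rfl
    apply h4
    unfold bilinear
    simp
  obtain ⟨w, hw1, hw2⟩ := hI (AlgebraicClosure K) (Fin (a + 1)) (Matrix.of fun k l =>
    eval u (extend (algebraMap K (AlgebraicClosure K)) A k l))
    (fun k l => by
      change eval u (map _ (A k l)) = eval u (map _ (A l k))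
      rw [hA k l]) h1 (by rw [Fintype.card_fin]; omega) z hz h2
  have k1 := hH (AlgebraicClosure K) r n i (Fin (a + 1))
    (mC (algebraMap K (AlgebraicClosure K)) A) d hM' u e e' z h2
  have k2 := hH (AlgebraicClosure K) r n i (Fin (a + 1))
    (mC (algebraMap K (AlgebraicClosure K)) A) d hM' u e e' z' h3
  obtain ⟨m2, m3, m0⟩ := k1
  obtain ⟨m1, m4, m5, m6⟩ := m0 hd
  obtain ⟨n2, n3, n0⟩ := k2
  obtain ⟨n1, n4, n5, n6⟩ := n0 hd
  set C₀ := c9 (mC (algebraMap K (AlgebraicClosure K)) A) u (hat i e) (hat i e') z with hC₀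
  set C₁ := c9 (mC (algebraMap K (AlgebraicClosure K)) A) u (hat i e) (hat i e') z' with hC₁
  have g0 : C₀ 0 ≠ 0 := by
    rw [← m2]; exact h7
  have g1 : C₀ 1 ≠ 0 := by
    rw [← m3]; exact h8
  have gP : Ph C₀ ≠ 0 := by
    intro hP
    refine h6 (C₀ 1) (-C₀ 0) (Or.inl g1) ?_
    obtain ⟨p0, p1, p2⟩ := m6 (C₀ 1) (-C₀ 0)
    refine Polynomial.X_pow_dvd_iff.2 fun d hd => ?_
    have hd' : d = 0 ∨ d = 1 ∨ d = 2 := by omega
    rcases hd' with rfl | rfl | rfl
    · exact p0
    · refine p1.trans ?_
      ring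
    · refine p2.trans ?_
      have : (C₀ 1) ^ 2 * C₀ 2 + C₀ 1 * (-C₀ 0) * C₀ 3 + (-C₀ 0) ^ 2 * C₀ 4 = Ph C₀ := by
        unfold Ph; ring
      rw [this, hP]
  have gS : Sm3 (tern C₀) := by
    rw [← m1]
    exact h5
  have gD : ds9 C₀ ≠ 0 := hS _ C₀ gS gP g1
  have l0 : C₁ 0 = 0 := by
    rw [← n2]
    change (onLine (sliceForm (extend (algebraMap K (AlgebraicClosure K)) A) u z' i)
      (fun j => u ⟨i, j⟩) e).coeff 1 = 0
    rw [h9]
    simp [Polynomial.coeff_X_pow]
  have l2 : C₁ 2 = 0 := by
    rw [← n4]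
    change (onLine (sliceForm (extend (algebraMap K (AlgebraicClosure K)) A) u z' i)
      (fun j => u ⟨i, j⟩) e).coeff 2 = 0
    rw [h9]
    simp [Polynomial.coeff_X_pow]
  have l5 : C₁ 5 ≠ 0 := by
    rw [← n5]
    change (onLine (sliceForm (extend (algebraMap K (AlgebraicClosure K)) A) u z' i)
      (fun j => u ⟨i, j⟩) e).coeff 3 ≠ 0
    rw [h9]
    simpa [Polynomial.coeff_X_pow] using hc
  have l1 : C₁ 1 ≠ 0 := by
    rw [← n3]; exact h10
  exact ⟨u, e, e', z, z', w, h2, h3, h4, hw1, hw2, gP, gD, g0, l0, l2, l1, l5⟩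

/-- the same for the degrees one and two -/
lemma geo2_of (hH : S_HY2) (hI : S_ISO) {K : Type} [Field K] [CharZero K] {a r : ℕ}
    (ha : 2 ≤ a) {n : Fin r → ℕ} {A : Fin (a + 1) → Fin (a + 1) → MvPolynomial (Vars n) K}
    (hA : ∀ k l, A k l = A l k) {d : Fin r → ℕ} (hM : ∀ k l, MultiHomogeneous d (A k l))
    {i : Fin r} (h : MovingTangent A i) :
    ∃ (u : Vars n → AlgebraicClosure K) (ε ε' : Fin (n i + 1) → AlgebraicClosure K)
      (z₀ z₁ w : Fin (a + 1) → AlgebraicClosure K),
      Geo2 (mC (algebraMap K (AlgebraicClosure K)) A) u (hat i ε) (hat i ε') z₀ z₁ w := by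
  classical
  obtain ⟨u, e, e', z, z', B, q, rfl, rfl, h1, h2, h3, h4, h5⟩ := h
  have hM' : ∀ k l, MH d (mC (algebraMap K (AlgebraicClosure K)) A k l) := fun k l =>
    MHD_map (show MH d (A k l) from hM k l) _
  have hz : z ≠ 0 := by
    rintro rfl
    apply h4
    unfold bilinear
    simp
  obtain ⟨w, hw1, hw2⟩ := hI (AlgebraicClosure K) (Fin (a + 1)) (Matrix.of fun k l =>
    eval u (extend (algebraMap K (AlgebraicClosure K)) A k l))
    (fun k l => by
      change eval u (map _ (A k l)) = eval u (map _ (A l k))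
      rw [hA k l]) h1 (by rw [Fintype.card_fin]; omega) z hz h2
  obtain ⟨m2, m3, -⟩ := hH (AlgebraicClosure K) r n i (Fin (a + 1))
    (mC (algebraMap K (AlgebraicClosure K)) A) d hM' u e e' z h2
  obtain ⟨n2, n3, -⟩ := hH (AlgebraicClosure K) r n i (Fin (a + 1))
    (mC (algebraMap K (AlgebraicClosure K)) A) d hM' u e e' z' h3
  refine ⟨u, e, e', z, z', w, h2, h3, h4, hw1, hw2, ?_⟩
  rw [← m2, ← m3, ← n2, ← n3]
  exact h5

/-- **The closure of the rational points is open outside a divisor.** -/
theorem result :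
    ∀ (K : Type) [Field K] [CharZero K] (a r : ℕ) (n d : Fin r → ℕ), 2 ≤ a → 1 ≤ r →
      (∀ i, d i ≤ 3) →
      ∀ A : Fin (a + 1) → Fin (a + 1) → MvPolynomial (Vars n) K, (∀ k l, A k l = A l k) →
      (∀ k l, MultiHomogeneous d (A k l)) → Irreducible (equation A) →
      (∀ i, d i = 3 → MovingFlex A i) → (∀ i, d i ≤ 2 → MovingTangent A i) →
      ∃ N : MvPolynomial (Fin (a + 1) ⊕ Vars n) K, ¬ equation A ∣ N ∧
        OpenOutside (equation A) N := by
  classical
  intro K _ _ a r n d ha hr hd3 A hA hM hirr hF hG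
  have hQA : S_QUA := t_QUA
  have hO : S_ONE := t_ONE
  have hTw : S_TWO := t_TWO
  have hQ : S_QGC := t_QGC
  have hCo : S_CON := t_CON
  have hN : S_NEA9 := t_NEA9
  have hP : S_PLN := t_PLN hQA hO hTw
  have hV : S_CVG := t_CVG hQA hO
  have hD : S_DG2 := t_DG2
  obtain ⟨T, hT, N, hN0, h⟩ := exists_NG2 (t_NPL t_PRM t_LCP) t_NP2 t_SPN
    (C := A) hA hirr d (fun i => by
      by_cases hi : d i = 3
      · exact Or.inl ⟨hi, geo_of t_HY2 t_DSC t_ISO ha hA hM hi (hF i hi)⟩
      · have h2 : d i ≤ 2 := by
          have := hd3 i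
          omega
        exact Or.inr ⟨h2, geo2_of t_HY2 t_ISO ha hA hM (hG i h2)⟩)
  have hM' : ∀ k l, MH d (A k l) := hM
  refine ⟨N, hN0, ?_⟩
  have ev : ∀ (F : Type) [Field F] (φ : K →+* F) (P : Fin (a + 1) ⊕ Vars n → F),
      eval P (map φ N) ≠ 0 → eval₂ φ (Sum.elim (fun a => P (Sum.inl a))
        fun b => P (Sum.inr b)) N ≠ 0 := by
    intro F _ φ P hP
    have e1 : (Sum.elim (fun a => P (Sum.inl a)) fun b => P (Sum.inr b)) = P := by
      funext c
      rcases c with c | c <;> rfl
    rwa [e1, ← eval_map]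
  intro ι _ _ p _ hinj σ
  refine ⟨fun P hP' hw => ?_, fun τ P hP' hw hw' => ?_⟩
  · refine fill_p σ hP' (gen2_p hQ hCo hN hP hV hD hinj σ hr hA hM' hT (fun v => ?_) fun v => ?_)
    · exact (on_iff (σ v) A (P v)).1 (on_of_closure hP' v)
    · exact h _ (σ v) _ _ (ev _ (σ v) (P v) (hw v))
  · obtain ⟨hon1, hon2⟩ := on_of_closureR hP'
    let x : ∀ v : Option ι, Fin (a + 1) → Lv p v := fun v =>
      match v with
      | none => fun a => P.1 (Sum.inl a)
      | some i => fun a => P.2 i (Sum.inl a)
    let w : ∀ v : Option ι, Vars n → Lv p v := fun v =>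
      match v with
      | none => fun b => P.1 (Sum.inr b)
      | some i => fun b => P.2 i (Sum.inr b)
    refine fill_r σ τ hP' (x := x) (w := w) rfl rfl (fun _ => rfl) (fun _ => rfl)
      (gen2_r hQ hCo hN hP hV hD hinj σ τ hr hA hM' hT ?_ ?_)
    · rintro (_ | v)
      · exact (on_iff τ A P.1).1 hon1
      · exact (on_iff (σ v) A (P.2 v)).1 (hon2 v)
    · rintro (_ | v)
      · exact h ℝ τ _ _ (ev _ τ P.1 hw)
      · exact h _ (σ v) _ _ (ev _ (σ v) (P.2 v) (hw' v))

end Pool.Agent.Results.MP_83e36b_nt.QuadricBundlesOverProducts
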