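import Pool.Agent.Y716.D.Main
import Pool.Agent.K6.H67.CW.Main

/-!
# Weak approximation for 100% of the smooth Fano cyclic covers of projective space

Let `n ≥ 3`, `m ≥ 2`, `k ≥ 1` and `m k ≤ n`. For a form `F` of degree `m k` in `x_0, …, x_n` with
integral coefficients let `X_F` be the cyclic cover `w ^ m = F(x_0, …, x_n)` of `ℙⁿ` of degree `m`
branched along `F = 0`, a hypersurface of degree `m k` in the weighted projective space
`ℙ(1, …, 1, k)`: the points are the classes of the `(x, w)` with `x ≠ 0` up to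
`(x, w) ↦ (c x, c ^ k w)`. If the branch divisor is smooth then `X_F` is a smooth Fano variety of
dimension `n` (`-K` is the pull-back of `O(n + 1 + k - m k)`), for instance a cyclic cubic threefold
(`n = m = 3`, `k = 1`), a double cover of `ℙ⁴` branched along a quartic threefold, or a triple cover
of `ℙ⁶` branched along a sextic fivefold. By the conjecture of Colliot-Thélène weak approximation
holds for these varieties.

Among the `F` with coefficients bounded by `H` and smooth branch divisor for which `X_F` has points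
over the real numbers and over all the `p`-adic fields, a proportion tending to `1` as `H → ∞` has
the following property: for all families of local points `(z_p, v_p)`, `(y, u)` there is a rational
point whose distance from them is at most `1 / M(H)` at the real place and at all the primes
`p ≤ M(H)`, where `M(H) → ∞`. At the real place the distance of the last coordinates is measured
relative to the size `‖y‖ ^ k ‖F‖ ^ (1 / m)` which this coordinate has on `X_F`, where `‖F‖` is the
largest absolute value of a coefficient.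

Proof. The sections `w = G(x)` of the cover over the hypersurfaces `F = G ^ m` of `ℙⁿ`, where `G` is a
form of degree `k` with coefficients of size about `H ^ (1 / m)`, taken from a family of forms with
prescribed values and gradients at one point at the small primes and at the real place. The forms
`F - G ^ m` are distributed like forms of degree `m k ≤ n` in a residue class and in a box, and almost
all of these have a zero near a given smooth local one at the small primes and at the real place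
(`Pool/Agent/Y716/D`, after Browning, Le Boudec and Sawin). The Hasse principle for these covers was
proved in this way in `Pool/Agent/Results/MP_03ef3d_ag/CyclicCovers.lean`.
-/

set_option autoImplicit false

namespace Pool.Agent.Results.MP_83e36b_nt.RandomCyclicCoversWA

open Filter Topology

/-- The forms of degree `D` in `n + 1` variables whose coefficients are integers of absolute value
at most `H`. -/
def Forms (n D H : ℕ) : Set (MvPolynomial (Fin (n + 1)) ℤ) :=
  {F | F.IsHomogeneous D ∧ ∀ a, |F.coeff a| ≤ (H : ℤ)}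

/-- The hypersurface `F = 0` in `ℙⁿ` is smooth: at every zero over a field of characteristic zero
some partial derivative does not vanish. -/
def Smooth {n : ℕ} (F : MvPolynomial (Fin (n + 1)) ℤ) : Prop :=
  ∀ (K : Type) [Field K] [CharZero K] (x : Fin (n + 1) → K), x ≠ 0 →
    MvPolynomial.aeval x F = 0 → ∃ i, MvPolynomial.aeval x (MvPolynomial.pderiv i F) ≠ 0

/-- The cyclic cover `w ^ m = F(x)` of `ℙⁿ` has a point over the field `K`. -/
def HasPoint {n : ℕ} (m : ℕ) (F : MvPolynomial (Fin (n + 1)) ℤ) (K : Type) [Field K] : Prop :=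
  ∃ (x : Fin (n + 1) → K) (w : K), x ≠ 0 ∧ w ^ m = MvPolynomial.aeval x F

/-- The cyclic cover has points over the real numbers and over all the `p`-adic fields. -/
def LocallySoluble {n : ℕ} (m : ℕ) (F : MvPolynomial (Fin (n + 1)) ℤ) : Prop :=
  HasPoint m F ℝ ∧ ∀ (p : ℕ) [Fact p.Prime], HasPoint m F ℚ_[p]

/-- Weak approximation for the cyclic cover `w ^ m = F(x)`, `deg F = m k`, with precision `1 / M` at
the real place and at the primes up to `M`: for all local points `(z p, v p)` over the `p`-adic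
fields and every real point `(y, u)` there is a rational point `(x, w)` such that

* for all primes `p ≤ M` there is a representative `(c x, c ^ k w)` of this point with
  `‖z p - c x‖ ≤ ‖z p‖ / M` and `‖v p - c ^ k w‖ ≤ ‖z p‖ ^ k / M`,
* there is a representative `(c x, c ^ k w)` of this point with `‖y - c x‖ ≤ ‖y‖ / M` and
  `|u - c ^ k w| ≤ ‖y‖ ^ k ‖F‖ ^ (1 / m) / M`, where `‖F‖` is the largest absolute value of a
  coefficient of `F`.

(All norms of vectors are maximum norms.) -/
def WeakApprox {n : ℕ} (m k M : ℕ) (F : MvPolynomial (Fin (n + 1)) ℤ) : Prop :=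
  ∀ (z : ∀ (p : ℕ) [Fact p.Prime], Fin (n + 1) → ℚ_[p]) (v : ∀ (p : ℕ) [Fact p.Prime], ℚ_[p])
    (y : Fin (n + 1) → ℝ) (u : ℝ),
    (∀ (p : ℕ) [Fact p.Prime], z p ≠ 0 ∧ v p ^ m = MvPolynomial.aeval (z p) F) → y ≠ 0 →
    u ^ m = MvPolynomial.aeval y F →
    ∃ (x : Fin (n + 1) → ℚ) (w : ℚ), x ≠ 0 ∧ w ^ m = MvPolynomial.aeval x F ∧
      (∀ (p : ℕ) [Fact p.Prime], p ≤ M → ∃ c : ℚ_[p], c ≠ 0 ∧
        (∀ i, ‖z p i - c * (x i : ℚ_[p])‖ ≤ ‖z p‖ / M) ∧
        ‖v p - c ^ k * (w : ℚ_[p])‖ ≤ ‖z p‖ ^ k / M) ∧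
      ∃ c : ℝ, c ≠ 0 ∧ (∀ i, |y i - c * (x i : ℝ)| ≤ ‖y‖ / M) ∧
        ∃ a, (M * |u - c ^ k * (w : ℝ)|) ^ m ≤ ‖y‖ ^ (m * k) * |((F.coeff a : ℤ) : ℝ)|

theorem smooth_iff {n : ℕ} (f : Fin 1 → MvPolynomial (Fin (n + 1)) ℤ) :
    Pool.Agent.Y697.C13.SmoothS f ↔ Smooth (f 0) := by
  constructor
  · intro h K _ _ x hx hF
    obtain ⟨i, hi⟩ := h K x (fun _ => 1) hx (by
      intro h0
      exact one_ne_zero (congrFun h0 0)) (by
      intro j
      rw [Subsingleton.elim j 0]
      exact hF)
    refine ⟨i, ?_⟩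
    rwa [Fin.sum_univ_one, one_mul] at hi
  · intro h K _ _ x l hx hl hF
    obtain ⟨i, hi⟩ := h K x hx (hF 0)
    refine ⟨i, ?_⟩
    rw [Fin.sum_univ_one]
    refine mul_ne_zero ?_ hi
    intro h0
    apply hl
    funext j
    rw [Subsingleton.elim j 0]
    exact h0

theorem ncard_iff {n D H : ℕ} {e : Fin 1 → ℕ} (he : ∀ j, e j + 2 = D)
    (P : (Fin 1 → MvPolynomial (Fin (n + 1)) ℤ) → Prop)
    (P' : MvPolynomial (Fin (n + 1)) ℤ → Prop) (hP : ∀ f, P f ↔ P' (f 0)) :
    ({f : Fin 1 → MvPolynomial (Fin (n + 1)) ℤ | (∀ j, (f j).IsHomogeneous (e j + 2) ∧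
      ∀ a, |(f j).coeff a| ≤ (H : ℤ)) ∧ P f} : Set _).ncard =
    ({F | F ∈ Forms n D H ∧ P' F} : Set _).ncard := by
  have hinj : Function.Injective (fun F : MvPolynomial (Fin (n + 1)) ℤ => fun _ : Fin 1 => F) :=
    fun F F' h => congrFun h 0
  rw [← Set.ncard_image_of_injective _ hinj]
  congr 1
  ext f
  simp only [Set.mem_ofPred_eq, Set.mem_image, Forms]
  constructor
  · rintro ⟨h1, h2⟩
    refine ⟨f 0, ⟨⟨?_, (h1 0).2⟩, (hP f).mp h2⟩, ?_⟩
    · have := (h1 0).1
      rwa [he 0] at this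
    · funext j
      rw [Subsingleton.elim j 0]
  · rintro ⟨F, ⟨⟨h1, h2⟩, h3⟩, rfl⟩
    refine ⟨fun j => ⟨?_, h2⟩, (hP _).mpr h3⟩
    rw [he j]
    exact h1

/-- For `n ≥ 3`, `m ≥ 2`, `k ≥ 1` and `m k ≤ n`, 100% of the everywhere locally soluble smooth
cyclic covers `w ^ m = F(x)` of `ℙⁿ`, `deg F = m k`, ordered by height, satisfy weak approximation
with a precision which tends to infinity with the height. -/
theorem result (n m k : ℕ) (hn : 3 ≤ n) (hm : 2 ≤ m) (hk : 1 ≤ k) (h : m * k ≤ n) :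
    ∃ M : ℕ → ℕ, Tendsto M atTop atTop ∧ Tendsto (fun H : ℕ =>
      (({F | F ∈ Forms n (m * k) H ∧ Smooth F ∧ LocallySoluble m F ∧
        WeakApprox m k (M H) F} : Set _).ncard : ℝ) /
      (({F | F ∈ Forms n (m * k) H ∧ Smooth F ∧ LocallySoluble m F} : Set _).ncard : ℝ))
      atTop (𝓝 1) := by
  obtain ⟨κ, rfl⟩ : ∃ κ, k = κ + 1 := ⟨k - 1, by omega⟩
  have hD2 : 2 ≤ m * (κ + 1) := by nlinarith
  obtain ⟨e, he⟩ : ∃ e : Fin 1 → ℕ, ∀ j, e j + 2 = m * (κ + 1) :=
    ⟨fun _ => m * (κ + 1) - 2, fun j => by dsimp only; omega⟩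
  have hdeg : ∑ j, (e j + 2) ≤ n := by
    rw [Fin.sum_univ_one, he 0]
    exact h
  obtain ⟨h1, h2⟩ := Pool.Agent.Y716.D.dims le_rfl hn hdeg
  obtain ⟨M, hM, hT⟩ := Pool.Agent.K6.H67.CW.wa_cover (Fin (n + 1)) (m := m) (κ := κ) hm
    (by rw [Fintype.card_fin]; omega) he
    (Pool.Agent.Y716.D.class_all (Fin (n + 1)) le_rfl h1 e h2)
    (Pool.Agent.Y232.CS.bad_int (Fin (n + 1)) e) (Pool.Agent.Y407.C4.bad_real (Fin (n + 1)) e)
    (Pool.Agent.Y716.D.pos_all (Fin (n + 1)) le_rfl h1 e h2)
  refine ⟨M, hM, hT.congr fun H => ?_⟩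
  have e1 : ({f : Fin 1 → MvPolynomial (Fin (n + 1)) ℤ |
      (∀ j, (f j).IsHomogeneous (e j + 2) ∧ ∀ a, |(f j).coeff a| ≤ (H : ℤ)) ∧
      Pool.Agent.Y697.C13.SmoothS f ∧ Pool.Agent.R465.CV.ElsW m f} : Set _).ncard =
      ({F | F ∈ Forms n (m * (κ + 1)) H ∧ Smooth F ∧ LocallySoluble m F} : Set _).ncard := by
    refine ncard_iff he (fun f => Pool.Agent.Y697.C13.SmoothS f ∧ Pool.Agent.R465.CV.ElsW m f)
      (fun F => Smooth F ∧ LocallySoluble m F) fun f => ?_
    exact and_congr (smooth_iff f) Iff.rfl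
  have e2 : ({f : Fin 1 → MvPolynomial (Fin (n + 1)) ℤ |
      (∀ j, (f j).IsHomogeneous (e j + 2) ∧ ∀ a, |(f j).coeff a| ≤ (H : ℤ)) ∧
      Pool.Agent.Y697.C13.SmoothS f ∧ Pool.Agent.R465.CV.ElsW m f ∧
      Pool.Agent.K6.H67.CW.WAF m (κ + 1) (M H) (f 0)} : Set _).ncard =
      ({F | F ∈ Forms n (m * (κ + 1)) H ∧ Smooth F ∧ LocallySoluble m F ∧
        WeakApprox m (κ + 1) (M H) F} : Set _).ncard := by
    refine ncard_iff he (fun f => Pool.Agent.Y697.C13.SmoothS f ∧ Pool.Agent.R465.CV.ElsW m f ∧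
      Pool.Agent.K6.H67.CW.WAF m (κ + 1) (M H) (f 0))
      (fun F => Smooth F ∧ LocallySoluble m F ∧ WeakApprox m (κ + 1) (M H) F) fun f => ?_
    exact and_congr (smooth_iff f) Iff.rfl
  rw [e1, e2]

end Pool.Agent.Results.MP_83e36b_nt.RandomCyclicCoversWA
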