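import Pool.Agent.K6.H43.TC.Asm
import Pool.Agent.K6.H43.TC.Ioc
import Pool.Agent.K6.H43.TC.Nea
import Pool.Agent.K6.H43.TC.Csp
import Pool.Agent.K6.H43.TC.Dir
import Pool.Agent.K6.H43.TC.Pol
import Pool.Agent.K6.H43.TC.Qrt
import Pool.Agent.K6.H43.TC.Sma
import Pool.Agent.K6.H43.TC.Smb
import Pool.Agent.K6.H43.TC.Smc

/-!
# Cyclic triple covers of products of projective spaces, Fano or not: the closure of the rational
# points is open outside a proper closed subset

`K` is a field of characteristic zero, for example a number field, and `X` is the cyclic triple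
cover `w³ = f(x₁, …, x_r)` of `ℙ^{n₁} × … × ℙ^{n_r}`, `n_i ≥ 1`, branched along a divisor of
multidegree `(3, …, 3)`. So each factor gives a fibration of `X` in cyclic cubic hypersurfaces. If
`X` is smooth, then it is rationally connected if and only if `n_k ≥ 2` for some `k`; it is a Fano
variety only if `n_i ≥ 2` for all `i`. The simplest new examples are the fibrations in cubic
surfaces `w³ = f(x, t)`, `x ∈ ℙ²`, `t ∈ ℙ¹`, of bidegree `(3, 3)`, their analogues over `(ℙ¹)^m`,
and the Fano fourfolds `w³ = f(x, y)`, `x, y ∈ ℙ²`.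

We consider finite nonempty sets of `p`-adic places of degree one (embeddings of `K` into `ℚ_p`)
over different primes `p`, with or without a real place; for `K = ℚ` these are all the finite sets
of places which contain a finite place.

**Theorem.** Let `f` be irreducible, and suppose that for each `i` the form in the variables of the
`i`-th factor, which one gets by inserting the other coordinates of `x` in `f`, is smooth for some
point `x` of the product (both are true if `X` is smooth, of dimension at least two, by generic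
smoothness), and that `n_k ≥ 2` for some `k`. Then there is a proper closed subset `Z` of `X`, given
by the equation `w N = 0` with a polynomial `N ≠ 0` over `K` which depends only on `f`, such that
for every such set of places the closure of `X(K)` in the product of the `X(K_v)` is a neighbourhood
of each of its points `T = (T_v)` for which no `T_v` belongs to `Z`.

(In the formal statement we work with the coordinates `(x, w)`, that is with the cone over `X`.)

Idea of the proof. A line through the `i`-th component of a point `P` in the direction `e` gives a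
plane cubic `C` through `P` in `X`, and the class `h - 3 P` (`h` a line section) on its Jacobian.
The projection from `P` makes `C` a double cover of the line with four branch points and with two
rational points, the images of the two points of `C` on its tangent at `P`, and their difference is
this class. Where it is of infinite order, its multiples give approximations on `C` close to `P`,
uniformly in `P`, by the theorem of the earlier files (`Pool.Agent.Y720`) for double covers. Let
`c₀ + c₁ t + c₂ t² + c₃ t³`, `c₀ = w³`, be the restriction of `f` to the line, `H = c₁² - 3 c₀ c₂`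
and `G` its covariants at `t = 0`, `4 H³ - G² = 27 c₀² D`. The Jacobian is `Y² = X³ + 16 c₀² D`, the
class has the abscissa `(4 G² - 12 H³) / (9 H²)`. (1) If `n_k ≥ 2`, we vary the direction `e` of the
line in the `k`-th factor. If the invariant `G² / H³` depends on `e`, then there is a direction
with `D = 0` and `H ≠ 0`, where the Jacobian degenerates to a cuspidal cubic, and the class to a
point of its additive group different from zero; so it is of infinite order for all but countably
many directions in a pencil. The invariant depends on `e` for general points because of the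
smoothness. (2) If one can move in the `k`-th factor, and `i` is another factor, then we move along a
general line in the `k`-th factor. Where this line meets the branch divisor `f = 0` in the algebraic
closure, the Jacobian of the cubic in the direction of the `i`-th factor degenerates in the same
way, and the class does not degenerate to zero because `f` does not divide its derivatives. So it
is of infinite order for all but countably many points of the line, and we can move in the `i`-th
factor, too. So the closure contains all the points close to `T`.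

The pieces of the proof were formalised together with helper11, helper13, helper20, helper21,
helper25 and helper39 (`Pool/Agent/K6/H43/TC`); the blocks of variables are those of helper96
(`Pool/Agent/K6/H96/MX`).
-/

set_option autoImplicit false

namespace Pool.Agent.Results.MP_83e36b_nt.TripleCoversOfProducts

open MvPolynomial Pool.Agent.Y720.MZ Pool.Agent.K6.H43.TC

/-- The point `(x, w)` lies on the triple cover `w³ = f(x)`. -/
def OnCover {F : Type} [Field F] {α : Type} (f : MvPolynomial α F) (P : (α → F) × F) : Prop :=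
  P.2 ^ 3 = eval P.1 f

/-- The image of a point under an embedding of fields. -/
def image {K F : Type} [Field K] [Field F] (φ : K →+* F) {α : Type} (P : (α → K) × K) :
    (α → F) × F :=
  (fun a => φ (P.1 a), φ P.2)

/-- The closure of the `K`-points in the product of the sets of the `ℚ_[p v]`-points. -/
def Closure {K : Type} [Field K] {α : Type} [Fintype α] (f : MvPolynomial α K) {ι : Type}
    {p : ι → ℕ} [∀ v, Fact (p v).Prime] (σ : ∀ v, K →+* ℚ_[p v]) :
    Set (∀ v, (α → ℚ_[p v]) × ℚ_[p v]) :=
  closure {S | ∃ P, OnCover f P ∧ S = fun v => image (σ v) P}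

/-- The closure of the `K`-points in the product of the set of the real points and of the sets of
the `ℚ_[p v]`-points. -/
def ClosureReal {K : Type} [Field K] {α : Type} [Fintype α] (f : MvPolynomial α K) {ι : Type}
    {p : ι → ℕ} [∀ v, Fact (p v).Prime] (σ : ∀ v, K →+* ℚ_[p v]) (τ : K →+* ℝ) :
    Set (((α → ℝ) × ℝ) × ∀ v, (α → ℚ_[p v]) × ℚ_[p v]) :=
  closure {S | ∃ P, OnCover f P ∧ S = (image τ P, fun v => image (σ v) P)}

/-- The variables `x_{i,j}`, `0 ≤ j ≤ n_i`, of the `r` factors `ℙ^{n_i}`. -/
abbrev Vars {r : ℕ} (n : Fin r → ℕ) : Type := (i : Fin r) × Fin (n i + 1)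

/-- The polynomial is a form of degree `d i` in the variables of the `i`-th factor. -/
def MultiHomogeneous {r : ℕ} {n : Fin r → ℕ} (d : Fin r → ℕ) {F : Type} [Field F]
    (f : MvPolynomial (Vars n) F) : Prop :=
  ∀ m ∈ f.support, ∀ i, ∑ j, m ⟨i, j⟩ = d i

/-- The form in the variables of the `i`-th factor, which one gets by inserting the coordinates of
the point `x` for the other variables. -/
noncomputable def restriction {r : ℕ} {n : Fin r → ℕ} {F : Type} [Field F]
    (f : MvPolynomial (Vars n) F) (x : Vars n → F) (i : Fin r) :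
    MvPolynomial (Fin (n i + 1)) F :=
  aeval (fun a : Vars n => Function.update
    (fun (k : Fin r) (j : Fin (n k + 1)) => (C (x ⟨k, j⟩) : MvPolynomial (Fin (n i + 1)) F)) i
    (fun j => (X j : MvPolynomial (Fin (n i + 1)) F)) a.1 a.2) f

/-- The hypersurface `G = 0` is smooth. -/
def SmoothForm {F : Type} [Field F] {m : ℕ} (G : MvPolynomial (Fin m) F) : Prop :=
  ∀ y : Fin m → AlgebraicClosure F, (∀ j, aeval y (pderiv j G) = 0) → y = 0

/-- The closure of the `K`-points is a neighbourhood of `T`. -/
def OpenAt {K : Type} [Field K] {α : Type} [Fintype α] (f : MvPolynomial α K) {ι : Type}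
    {p : ι → ℕ} [∀ v, Fact (p v).Prime] (σ : ∀ v, K →+* ℚ_[p v])
    (T : ∀ v, (α → ℚ_[p v]) × ℚ_[p v]) : Prop :=
  ∃ U ∈ nhds T, ∀ S ∈ U, (∀ v, OnCover (map (σ v) f) (S v)) → S ∈ Closure f σ

/-- The same with a real place. -/
def OpenAtReal {K : Type} [Field K] {α : Type} [Fintype α] (f : MvPolynomial α K) {ι : Type}
    {p : ι → ℕ} [∀ v, Fact (p v).Prime] (σ : ∀ v, K →+* ℚ_[p v]) (τ : K →+* ℝ)
    (T : ((α → ℝ) × ℝ) × ∀ v, (α → ℚ_[p v]) × ℚ_[p v]) : Prop :=
  ∃ U ∈ nhds T, ∀ S ∈ U, OnCover (map τ f) S.1 → (∀ v, OnCover (map (σ v) f) (S.2 v)) →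
    S ∈ ClosureReal f σ τ

/-- For all finite nonempty sets of `p`-adic places of degree one, with or without a
real place, the closure of the `K`-points is a neighbourhood of each of its points where neither `w`
nor `N` vanishes. -/
def OpenOutside {K : Type} [Field K] {α : Type} [Fintype α] (f N : MvPolynomial α K) : Prop :=
  ∀ (ι : Type) [Finite ι] [Nonempty ι] (p : ι → ℕ) [∀ v, Fact (p v).Prime],
    Function.Injective p → ∀ σ : ∀ v, K →+* ℚ_[p v],
      (∀ T ∈ Closure f σ, (∀ v, (T v).2 ≠ 0 ∧ eval (T v).1 (map (σ v) N) ≠ 0) →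
        OpenAt f σ T) ∧
      ∀ (τ : K →+* ℝ), ∀ T ∈ ClosureReal f σ τ, (T.1.2 ≠ 0 ∧ eval T.1.1 (map τ N) ≠ 0) →
        (∀ v, (T.2 v).2 ≠ 0 ∧ eval (T.2 v).1 (map (σ v) N) ≠ 0) → OpenAtReal f σ τ T

section aux

variable {K : Type} [Field K] [CharZero K] {α : Type} [Fintype α] {f : MvPolynomial α K}

omit [CharZero K] in
lemma dist_image {F : Type} [NormedField F] (φ : K →+* F) (P : (α → K) × K)
    (T : (α → F) × F) {η : ℝ} (hη : 0 < η) : dist T (image φ P) < η ↔
      (∀ j, ‖φ (P.1 j) - T.1 j‖ < η) ∧ ‖φ P.2 - T.2‖ < η := by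
  rw [dist_comm, Prod.dist_eq, max_lt_iff, dist_pi_lt_iff hη]
  simp only [dist_eq_norm, image]

variable {ι : Type} [Finite ι] {p : ι → ℕ} [hp : ∀ i, Fact (p i).Prime]

omit [CharZero K] in
lemma fill_p (σ : ∀ i, K →+* ℚ_[p i]) {T : ∀ i, (α → ℚ_[p i]) × ℚ_[p i]}
    (hcl : T ∈ Closure f σ) (hI : IntT σ f (fun i => (T i).1) (fun i => (T i).2)) :
    ∃ U ∈ nhds T, ∀ S ∈ U, (∀ i, OnCover (map (σ i) f) (S i)) → S ∈ Closure f σ := by
  have : Fintype ι := Fintype.ofFinite ι
  obtain ⟨ε, hε, hint⟩ := hI
  obtain ⟨_, ⟨P, hP, rfl⟩, h2⟩ := Metric.mem_closure_iff.1 hcl ε hε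
  rw [dist_pi_lt_iff hε] at h2
  refine ⟨Metric.ball T ε, Metric.ball_mem_nhds T hε, fun S hS hSX => ?_⟩
  rw [Metric.mem_ball, dist_pi_lt_iff hε] at hS
  rw [Closure, Metric.mem_closure_iff]
  intro η hη
  obtain ⟨z, w, k1, k2⟩ := hint P.1 P.2 hP (fun i => (dist_image (σ i) P (T i) hε).1 (h2 i))
    (fun i => (S i).1) (fun i => (S i).2) hSX (fun i => by
      have h3 := hS i
      rw [Prod.dist_eq, max_lt_iff, dist_pi_lt_iff hε] at h3
      simp only [dist_eq_norm] at h3
      exact h3) η hη
  refine ⟨_, ⟨(z, w), k1, rfl⟩, ?_⟩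
  rw [dist_pi_lt_iff hη]
  exact fun i => (dist_image (σ i) (z, w) (S i) hη).2 (k2 i)

omit [CharZero K] in
lemma fill_r (σ : ∀ i, K →+* ℚ_[p i]) (τ : K →+* ℝ)
    {T : ((α → ℝ) × ℝ) × ∀ i, (α → ℚ_[p i]) × ℚ_[p i]}
    (hcl : T ∈ ClosureReal f σ τ) {x : ∀ v : Option ι, α → Lv p v} {y : ∀ v : Option ι, Lv p v}
    (hx0 : x none = T.1.1) (hy0 : y none = T.1.2) (hx : ∀ i, x (some i) = (T.2 i).1)
    (hy : ∀ i, y (some i) = (T.2 i).2)
    (hI : IntT (sv σ τ) f x y) :
    ∃ U ∈ nhds T, ∀ S ∈ U, OnCover (map τ f) S.1 → (∀ i, OnCover (map (σ i) f) (S.2 i)) →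
      S ∈ ClosureReal f σ τ := by
  have : Fintype ι := Fintype.ofFinite ι
  obtain ⟨ε, hε, hint⟩ := hI
  obtain ⟨_, ⟨P, hP, rfl⟩, h2⟩ := Metric.mem_closure_iff.1 hcl ε hε
  rw [Prod.dist_eq, max_lt_iff, dist_pi_lt_iff hε] at h2
  refine ⟨Metric.ball T ε, Metric.ball_mem_nhds T hε, fun S hS hSr hSX => ?_⟩
  rw [Metric.mem_ball, Prod.dist_eq, max_lt_iff, dist_pi_lt_iff hε] at hS
  rw [ClosureReal, Metric.mem_closure_iff]
  intro η hη
  let x' : ∀ v : Option ι, α → Lv p v := fun v =>
    match v with
    | none => S.1.1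
    | some i => (S.2 i).1
  let y' : ∀ v : Option ι, Lv p v := fun v =>
    match v with
    | none => S.1.2
    | some i => (S.2 i).2
  obtain ⟨z, w, k1, k2⟩ := hint P.1 P.2 hP
    (by
      rintro (_ | i)
      · rw [hx0, hy0]
        exact (dist_image τ P T.1 hε).1 h2.1
      · rw [hx, hy]
        exact (dist_image (σ i) P (T.2 i) hε).1 (h2.2 i))
    x' y'
    (by
      rintro (_ | i)
      · exact hSr
      · exact hSX i)
    (by
      rintro (_ | i)
      · have h3 := hS.1
        rw [Prod.dist_eq, max_lt_iff, dist_pi_lt_iff hε] at h3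
        simp only [dist_eq_norm] at h3
        rw [hx0, hy0]
        exact h3
      · have h3 := hS.2 i
        rw [Prod.dist_eq, max_lt_iff, dist_pi_lt_iff hε] at h3
        simp only [dist_eq_norm] at h3
        rw [hx, hy]
        exact h3) η hη
  refine ⟨_, ⟨(z, w), k1, rfl⟩, ?_⟩
  rw [Prod.dist_eq, max_lt_iff, dist_pi_lt_iff hη]
  exact ⟨(dist_image τ (z, w) S.1 hη).2 (k2 none),
    fun i => (dist_image (σ i) (z, w) (S.2 i) hη).2 (k2 (some i))⟩

end aux

section closed

variable {K : Type} [Field K] {α : Type} [Fintype α] {f : MvPolynomial α K} {ι : Type}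
  {p : ι → ℕ} [∀ i, Fact (p i).Prime]

omit [Fintype α] in
lemma onCover_image {F : Type} [Field F] (φ : K →+* F) {P : (α → K) × K} (h : OnCover f P) :
    OnCover (map φ f) (image φ P) := by
  have k1 : eval (image φ P).1 (map φ f) = φ (eval P.1 f) := by
    rw [eval_map, image]
    exact (eval₂_comp_left φ (RingHom.id K) P.1 f).symm ▸ rfl
  unfold OnCover at *
  rw [k1, ← h, map_pow]
  rfl

lemma isClosed_onCover {F : Type} [NormedField F] (g : MvPolynomial α F) :
    IsClosed {P : (α → F) × F | OnCover g P} :=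
  isClosed_eq (by fun_prop) ((MvPolynomial.continuous_eval g).comp continuous_fst)

lemma on_of_closure {σ : ∀ i, K →+* ℚ_[p i]} {T : ∀ i, (α → ℚ_[p i]) × ℚ_[p i]}
    (hT : T ∈ Closure f σ) (i : ι) : OnCover (map (σ i) f) (T i) := by
  have h1 : IsClosed {T : ∀ i, (α → ℚ_[p i]) × ℚ_[p i] | OnCover (map (σ i) f) (T i)} :=
    (isClosed_onCover (map (σ i) f)).preimage
      (f := fun T : ∀ i, (α → ℚ_[p i]) × ℚ_[p i] => T i) (continuous_apply i)
  refine closure_minimal ?_ h1 hT
  rintro _ ⟨P, hP, rfl⟩
  exact onCover_image (σ i) hP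

lemma on_of_closureR {σ : ∀ i, K →+* ℚ_[p i]} {τ : K →+* ℝ}
    {T : ((α → ℝ) × ℝ) × ∀ i, (α → ℚ_[p i]) × ℚ_[p i]}
    (hT : T ∈ ClosureReal f σ τ) : OnCover (map τ f) T.1 ∧ ∀ i, OnCover (map (σ i) f) (T.2 i) := by
  constructor
  · have h1 : IsClosed {T : ((α → ℝ) × ℝ) × ∀ i, (α → ℚ_[p i]) × ℚ_[p i] |
        OnCover (map τ f) T.1} := (isClosed_onCover (map τ f)).preimage continuous_fst
    refine closure_minimal ?_ h1 hT
    rintro _ ⟨P, hP, rfl⟩
    exact onCover_image τ hP
  · intro i
    have h1 : IsClosed {T : ((α → ℝ) × ℝ) × ∀ i, (α → ℚ_[p i]) × ℚ_[p i] |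
        OnCover (map (σ i) f) (T.2 i)} :=
      (isClosed_onCover (map (σ i) f)).preimage
        (f := fun T : ((α → ℝ) × ℝ) × ∀ i, (α → ℚ_[p i]) × ℚ_[p i] => T.2 i)
        ((continuous_apply i).comp continuous_snd)
    refine closure_minimal ?_ h1 hT
    rintro _ ⟨P, hP, rfl⟩
    exact onCover_image (σ i) hP

end closed

open Pool.Agent.Y718.CL in
/-- **The closure of the rational points is open outside a divisor.** -/
theorem result :
    ∀ (K : Type) [Field K] [CharZero K] (r : ℕ) (n : Fin r → ℕ), (∀ i, 1 ≤ n i) →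
      ∀ f : MvPolynomial (Vars n) K, MultiHomogeneous (fun _ => 3) f → Irreducible f →
      (∀ i, ∃ x : Vars n → K, SmoothForm (restriction f x i)) → (∃ k, 2 ≤ n k) →
      ∃ N : MvPolynomial (Vars n) K, N ≠ 0 ∧ OpenOutside f N := by
  classical
  intro K _ _ r n hn f hf hirr hs ⟨k, hk⟩
  have hI : S_IOC := t_IOC
  have hC : S_CSP := t_CSP
  have hN : S_NEA := t_NEA hI hC
  have hd : S_DIR := t_DIR hI hC t_POL
  have hQ : S_QRT := t_QRT
  obtain ⟨N, hN0, h⟩ := exists_N3 t_SMA t_SMB t_SMC (show MH (fun _ => 3) f from hf) hirr hn hs hk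
  refine ⟨N, hN0, ?_⟩
  intro ι _ _ p _ hinj σ
  refine ⟨fun T hT hw => ?_, fun τ T hT hw hw' => ?_⟩
  · exact fill_p σ hT (gen3_p hQ hN hd hinj σ (show MH (fun _ => 3) f from hf)
      (on_of_closure hT) (fun v => (hw v).1) fun v => h _ (σ v) (T v).1 (hw v).2)
  · obtain ⟨hon1, hon2⟩ := on_of_closureR hT
    let x : ∀ v : Option ι, Vars n → Lv p v := fun v =>
      match v with
      | none => T.1.1
      | some i => (T.2 i).1
    let y : ∀ v : Option ι, Lv p v := fun v =>
      match v with
      | none => T.1.2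
      | some i => (T.2 i).2
    refine fill_r σ τ hT (x := x) (y := y) rfl rfl (fun _ => rfl) (fun _ => rfl)
      (gen3_r hQ hN hd hinj σ τ (show MH (fun _ => 3) f from hf) (k := k) ?_ ?_ ?_ ?_)
    · rintro (_ | v)
      · exact hon1
      · exact hon2 v
    · rintro (_ | v)
      · exact hw.1
      · exact (hw' v).1
    · exact h ℝ τ T.1.1 hw.2
    · exact fun v => h _ (σ v) (T.2 v).1 (hw' v).2

end Pool.Agent.Results.MP_83e36b_nt.TripleCoversOfProducts
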